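import Pool.Agent.Lib.MP_90534d_pr.Defs

/-! Valuation bookkeeping and the notions used in the proof. -/

namespace Pool.Agent.Lib.MP_90534d_pr

open Finset
open scoped WithZero

variable {K : Type*} [Field K] {w : Valuation K ℤᵐ⁰}

variable (w) in
/-- valuation at least `n` -/
def G (n : ℤ) (x : K) : Prop := w x ≤ WithZero.exp (-n)

variable (w) in
/-- valuation equal to `n` -/
def E (n : ℤ) (x : K) : Prop := w x = WithZero.exp (-n)

lemma E.g {n : ℤ} {x : K} (h : E w n x) : G w n x := le_of_eq h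

lemma G.mono {m n : ℤ} {x : K} (h : G w n x) (hm : m ≤ n) : G w m x :=
  le_trans h (WithZero.exp_le_exp.2 (by omega))

lemma G.cast {m n : ℤ} {x : K} (h : G w n x) (hm : n = m) : G w m x := hm ▸ h

lemma E.cast {m n : ℤ} {x : K} (h : E w n x) (hm : n = m) : E w m x := hm ▸ h

lemma G_zero (n : ℤ) : G w n 0 := by simp [G]

lemma E_one : E w 0 1 := by simp [E]

lemma G_one : G w 0 1 := E_one.g

lemma E.ne {n : ℤ} {x : K} (h : E w n x) : x ≠ 0 := by
  rintro rfl
  simp only [E, map_zero] at h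
  exact WithZero.exp_ne_zero h.symm

lemma G.neg {n : ℤ} {x : K} (h : G w n x) : G w n (-x) := by simpa [G] using h

lemma E.neg {n : ℤ} {x : K} (h : E w n x) : E w n (-x) := by simpa [E] using h

lemma G.add {n : ℤ} {x y : K} (h : G w n x) (h' : G w n y) : G w n (x + y) := w.map_add_le h h'

lemma G.sub {n : ℤ} {x y : K} (h : G w n x) (h' : G w n y) : G w n (x - y) := w.map_sub_le h h'

lemma G.swap {n : ℤ} {x y : K} (h : G w n (x - y)) : G w n (y - x) := by
  rw [← neg_sub]; exact h.neg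

lemma E.swap {n : ℤ} {x y : K} (h : E w n (x - y)) : E w n (y - x) := by
  rw [← neg_sub]; exact h.neg

lemma G.mul {m n : ℤ} {x y : K} (h : G w m x) (h' : G w n y) : G w (m + n) (x * y) := by
  unfold G at *
  rw [map_mul, neg_add, WithZero.exp_add]
  exact mul_le_mul' h h'

lemma E.mul {m n : ℤ} {x y : K} (h : E w m x) (h' : E w n y) : E w (m + n) (x * y) := by
  unfold E at *
  rw [map_mul, neg_add, WithZero.exp_add, h, h']

lemma E.inv {n : ℤ} {x : K} (h : E w n x) : E w (-n) x⁻¹ := by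
  unfold E at *
  rw [map_inv₀, h, ← WithZero.exp_neg]

lemma G.div {m n : ℤ} {x y : K} (h : G w m x) (h' : E w n y) : G w (m - n) (x / y) := by
  rw [div_eq_mul_inv, sub_eq_add_neg]; exact h.mul h'.inv.g

lemma E.div {m n : ℤ} {x y : K} (h : E w m x) (h' : E w n y) : E w (m - n) (x / y) := by
  rw [div_eq_mul_inv, sub_eq_add_neg]; exact h.mul h'.inv

lemma E.le {m n : ℤ} {x : K} (h : E w n x) (h' : G w m x) : m ≤ n := by
  unfold E G at *
  rw [h, WithZero.exp_le_exp] at h'
  omega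

lemma E.unique {m n : ℤ} {x : K} (h : E w n x) (h' : E w m x) : n = m :=
  le_antisymm (h'.le h.g) (h.le h'.g)

lemma exists_E {x : K} (h : x ≠ 0) : ∃ n, E w n x :=
  ⟨-WithZero.log (w x), by
    rw [E, neg_neg, WithZero.exp_log ((Valuation.ne_zero_iff w).2 h)]⟩

lemma G.cases {n : ℤ} {x : K} (h : G w n x) : E w n x ∨ G w (n + 1) x := by
  rcases eq_or_ne x 0 with rfl | hx
  · exact Or.inr (G_zero _)
  obtain ⟨m, hm⟩ := exists_E (w := w) hx
  rcases (hm.le h).eq_or_lt with rfl | hlt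
  · exact Or.inl hm
  · exact Or.inr (hm.g.mono (by omega))

lemma E.add {m n : ℤ} {x y : K} (h : E w n x) (h' : G w m y) (hm : n < m) : E w n (x + y) := by
  rcases (h.g.add (h'.mono hm.le)).cases with h1 | h1
  · exact h1
  · have := h.le (show G w (n + 1) x by simpa using h1.sub (h'.mono (by omega)))
    omega

lemma E.sub {m n : ℤ} {x y : K} (h : E w n x) (h' : G w m y) (hm : n < m) : E w n (x - y) := by
  rw [sub_eq_add_neg]; exact h.add h'.neg hm

lemma G.sum {α : Type*} {n : ℤ} {s : Finset α} {f : α → K} (h : ∀ a ∈ s, G w n (f a)) :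
    G w n (∑ a ∈ s, f a) := w.map_sum_le h

variable (w) in
/-- all integers are values, and `R` is a system of representatives of the residue field -/
structure Res (R : Finset K) : Prop where
  surj : ∀ n, ∃ x, E w n x
  int : ∀ r ∈ R, G w 0 r
  sep : ∀ r ∈ R, ∀ s ∈ R, r ≠ s → E w 0 (r - s)
  cov : ∀ x, G w 0 x → ∃ r ∈ R, G w 1 (x - r)

variable {ι : Type*} [DecidableEq ι]

variable (w) in
/-- closed under integral scalars -/
def OMod (L : AddSubgroup (ι → K)) : Prop := ∀ a, G w 0 a → ∀ x ∈ L, a • x ∈ L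

variable (w) in
/-- on the part of `L` vanishing on `I` the least valuation of the coordinate `i` is the
increment of `c` -/
def EntAt (L : AddSubgroup (ι → K)) (c : Finset ι → ℤ) (I : Finset ι) (i : ι) : Prop :=
  (∀ x ∈ L, (∀ j ∈ I, x j = 0) → G w (c (insert i I) - c I) (x i)) ∧
    ∃ x ∈ L, (∀ j ∈ I, x j = 0) ∧ E w (c (insert i I) - c I) (x i)

variable (w) in
/-- `c` is the entropy vector of `L` -/
def Ent (L : AddSubgroup (ι → K)) (c : Finset ι → ℤ) : Prop :=
  c ∅ = 0 ∧ ∀ I i, i ∉ I → EntAt w L c I i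

variable (w) in
/-- integral combinations of a finite family -/
def Lat {κ : Type*} [Fintype κ] (b : κ → ι → K) : AddSubgroup (ι → K) where
  carrier := {x | ∃ t : κ → K, (∀ j, G w 0 (t j)) ∧ x = ∑ j, t j • b j}
  zero_mem' := ⟨0, fun _ => G_zero _, by simp⟩
  add_mem' := by
    rintro _ _ ⟨t, ht, rfl⟩ ⟨s, hs, rfl⟩
    exact ⟨t + s, fun j => (ht j).add (hs j), by simp [add_smul, sum_add_distrib]⟩
  neg_mem' := by
    rintro _ ⟨t, ht, rfl⟩
    exact ⟨-t, fun j => (ht j).neg, by simp⟩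

omit [DecidableEq ι] in
lemma mem_Lat {κ : Type*} [Fintype κ] {b : κ → ι → K} {x : ι → K} :
    x ∈ Lat w b ↔ ∃ t : κ → K, (∀ j, G w 0 (t j)) ∧ x = ∑ j, t j • b j := Iff.rfl

omit [DecidableEq ι] in
lemma Lat_omod {κ : Type*} [Fintype κ] (b : κ → ι → K) : OMod w (Lat w b) := by
  rintro a ha _ ⟨t, ht, rfl⟩
  exact ⟨fun j => a * t j, fun j => (ha.mul (ht j)).cast (add_zero _),
    by simp [smul_sum, smul_smul]⟩

variable (w) in
/-- vectors with valuations at least `v` on `I` -/
def Box (v : ι → ℤ) (I : Finset ι) : AddSubgroup (ι → K) where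
  carrier := {x | ∀ i ∈ I, G w (v i) (x i)}
  zero_mem' := fun _ _ => G_zero _
  add_mem' := fun hx hy i hi => (hx i hi).add (hy i hi)
  neg_mem' := fun hx i hi => (hx i hi).neg

omit [DecidableEq ι] in
lemma mem_Box {v : ι → ℤ} {I : Finset ι} {x : ι → K} :
    x ∈ Box w v I ↔ ∀ i ∈ I, G w (v i) (x i) := Iff.rfl

variable (w) in
/-- modulo `W` the vector `x` has the right valuation at `i` once it vanishes on `I` -/
def At (W : Submodule K (ι → K)) (c : Finset ι → ℤ) (x : ι → K) (I : Finset ι) (i : ι) : Prop :=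
  ∃ y ∈ W, (∀ j ∈ I, y j = x j) ∧ E w (c (insert i I) - c I) (x i - y i)

variable (w) in
/-- a subspace of dimension `m` whose circuits have the right valuations -/
structure Sp (c : Finset ι → ℤ) (m : ℕ) (W : Submodule K (ι → K)) : Prop where
  inj : ∀ I : Finset ι, I.card = m → ∀ y ∈ W, (∀ j ∈ I, y j = 0) → y = 0
  surj : ∀ I : Finset ι, I.card = m → ∀ x : ι → K, ∃ y ∈ W, ∀ j ∈ I, y j = x j
  circ : ∀ S : Finset ι, S.card + 1 = m → ∃ u ∈ W, (∀ j ∈ S, u j = 0) ∧
    ∀ i ∉ S, E w (c (insert i S) - c S) (u i)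

lemma MConvex.local {c : Finset ι → ℤ} (h : MConvex c) {S : Finset ι} {i j : ι} (hi : i ∉ S)
    (hj : j ∉ S) (hij : i ≠ j) :
    c (insert i S) + c (insert j S) ≤ c (insert i (insert j S)) + c S := by
  have := h.2.1 (insert i S) (insert j S)
  rwa [insert_union, union_insert, union_self, insert_inter_of_notMem (by simp [hi, hij]),
    inter_insert_of_notMem hj, inter_self] at this

end Pool.Agent.Lib.MP_90534d_pr
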