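import Mathlib

/-! Gaussians over a local field, their tail functions, and tropical polynomials on the cube. -/

namespace Pool.Agent.Lib.MP_90534d_pr

open MeasureTheory Finset

section
variable (K : Type*) [Field K] [ValuativeRel K] [TopologicalSpace K] [IsNonarchimedeanLocalField K]

/-- the normalised valuation, with values in the integers and infinity -/
noncomputable def val (x : K) : WithTop ℤ :=
  open Classical in
  if x = 0 then ⊤ else
    ((-WithZero.log (IsNonarchimedeanLocalField.valueGroupWithZeroIsoInt K
      (ValuativeRel.valuation K x)) : ℤ) : WithTop ℤ)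

/-- the size of the residue field -/
noncomputable def resCard : ℕ :=
  Nat.card (IsLocalRing.ResidueField (ValuativeRel.valuation K).integer)

variable {K} {d : ℕ}

/-- the set `A O^d` -/
def lattice (A : Matrix (Fin d) (Fin d) K) : Set (Fin d → K) :=
  {x | ∃ t : Fin d → (ValuativeRel.valuation K).integer, x = A.mulVec fun j => (t j : K)}

/-- minus the logarithm in base `q` of the probability that `val (X i) ≥ v i` for all `i`, where
the law of `X` is `μ` restricted to the lattice and normalised -/
noncomputable def tail [MeasurableSpace (Fin d → K)] (μ : Measure (Fin d → K))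
    (A : Matrix (Fin d) (Fin d) K) (v : Fin d → ℤ) : ℝ :=
  -Real.logb (resCard K)
    (ProbabilityTheory.cond μ (lattice A) {x | ∀ i, (v i : WithTop ℤ) ≤ val K (x i)}).toReal

end

variable {ι : Type*} [DecidableEq ι]

/-- the tropical polynomial supported on the cube with coefficients `c` -/
def trop [Fintype ι] (c : Finset ι → ℤ) (v : ι → ℤ) : ℤ :=
  (univ : Finset (Finset ι)).sup' univ_nonempty fun I => ∑ i ∈ I, v i - c I

/-- normalised, supermodular, and the three term condition -/
def MConvex (c : Finset ι → ℤ) : Prop :=
  c ∅ = 0 ∧ (∀ I J, c I + c J ≤ c (I ∪ J) + c (I ∩ J)) ∧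
    ∀ (S : Finset ι) (i j k : ι), i ∉ S → j ∉ S → k ∉ S → i ≠ j → i ≠ k → j ≠ k →
      min (c (insert i (insert k S)) + c (insert j S))
        (c (insert j (insert k S)) + c (insert i S)) ≤
        c (insert i (insert j S)) + c (insert k S)

end Pool.Agent.Lib.MP_90534d_pr
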