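import Pool.Agent.Lib.MP_90534d_pr.Basic

/-! Existence and convexity of the entropy vector, and injectivity of `trop`. -/

namespace Pool.Agent.Lib.MP_90534d_pr

open Finset MeasureTheory
open scoped WithZero

section
variable {K : Type*} [Field K] {w : Valuation K ℤᵐ⁰} {R : Finset K}
  {ι : Type*} [DecidableEq ι] {L : AddSubgroup (ι → K)} {c : Finset ι → ℤ}

variable (w) in
/-- `t` is the least valuation of the coordinate `i` on the part of `L` vanishing on `I` -/
def EntT (L : AddSubgroup (ι → K)) (I : Finset ι) (i : ι) (t : ℤ) : Prop :=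
  (∀ x ∈ L, (∀ j ∈ I, x j = 0) → G w t (x i)) ∧
    ∃ x ∈ L, (∀ j ∈ I, x j = 0) ∧ E w t (x i)

omit [DecidableEq ι] in
lemma ent_common {I : Finset ι} {i j : ι} {s t : ℤ} (hi : EntT w L I i s)
    (hj : EntT w L I j t) :
    ∃ e ∈ L, (∀ k ∈ I, e k = 0) ∧ E w s (e i) ∧ E w t (e j) := by
  obtain ⟨e, he, he0, hei⟩ := hi.2
  obtain ⟨f, hf, hf0, hfj⟩ := hj.2
  rcases (hj.1 e he he0).cases with h1 | h1
  · exact ⟨e, he, he0, hei, h1⟩
  rcases (hi.1 f hf hf0).cases with h2 | h2
  · exact ⟨f, hf, hf0, h2, hfj⟩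
  refine ⟨e + f, L.add_mem he hf, fun k hk => ?_, hei.add h2 (by omega), ?_⟩
  · rw [Pi.add_apply, he0 k hk, hf0 k hk, add_zero]
  · rw [Pi.add_apply, add_comm]
    exact hfj.add h1 (by omega)

lemma ent_elim (hL : OMod w L) {I : Finset ι} {j : ι} {t : ℤ} {e y : ι → K} (he : e ∈ L)
    (hy : y ∈ L) (he0 : ∀ k ∈ I, e k = 0) (hy0 : ∀ k ∈ I, y k = 0) (hej : E w t (e j))
    (hyj : G w t (y j)) :
    y - (y j / e j) • e ∈ L ∧ ∀ k ∈ insert j I, (y - (y j / e j) • e) k = 0 := by
  refine ⟨L.sub_mem hy (hL _ ((hyj.div hej).cast (sub_self t)) e he), fun k hk => ?_⟩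
  rw [Pi.sub_apply, Pi.smul_apply, smul_eq_mul]
  rcases mem_insert.1 hk with rfl | hk
  · rw [div_mul_cancel₀ _ hej.ne, sub_self]
  · rw [he0 k hk, hy0 k hk, mul_zero, sub_self]

lemma ent_exch_le (hL : OMod w L) {I : Finset ι} {i j : ι} {s t s' t' : ℤ}
    (hi : EntT w L I i s) (hj : EntT w L I j t) (hi' : EntT w L (insert j I) i s')
    (hj' : EntT w L (insert i I) j t') : s' + t ≤ t' + s := by
  obtain ⟨e, he, he0, hei, hej⟩ := ent_common hi hj
  obtain ⟨y, hy, hy0, hyj⟩ := hj'.2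
  have hy1 : ∀ k ∈ I, y k = 0 := fun k hk => hy0 k (mem_insert_of_mem hk)
  obtain ⟨h1, h2⟩ := ent_elim hL he hy he0 hy1 hej (hj.1 y hy hy1)
  have h3 := hi'.1 _ h1 h2
  rw [Pi.sub_apply, Pi.smul_apply, smul_eq_mul, hy0 i (mem_insert_self _ _), zero_sub] at h3
  have h4 := ((hyj.div hej).mul hei).neg.le h3
  omega

lemma ent_bound {α : Type*} [Finite α] (f : α → K) : ∃ n, ∀ a, G w n (f a) := by
  have h : ∀ a, ∃ n, G w n (f a) := fun a => by
    rcases eq_or_ne (f a) 0 with h0 | h0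
    · exact ⟨0, h0 ▸ G_zero 0⟩
    · obtain ⟨n, hn⟩ := exists_E (w := w) h0
      exact ⟨n, hn.g⟩
  choose n hn using h
  obtain ⟨N, hN⟩ := (Set.finite_range n).bddBelow
  exact ⟨N, fun a => (hn a).mono (hN ⟨a, rfl⟩)⟩

lemma ent_least {κ : Type*} [Fintype κ] [Fintype ι] (hR : Res w R) (b : κ → ι → K)
    (hb : Submodule.span K (Set.range b) = ⊤) (I : Finset ι) (i : ι) (hi : i ∉ I) :
    ∃ t, EntT w (Lat w b) I i t := by
  obtain ⟨N, hN⟩ := ent_bound (w := w) fun j => b j i
  have hlow : ∀ x ∈ Lat w b, G w N (x i) := by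
    rintro _ ⟨t, ht, rfl⟩
    rw [Finset.sum_apply]
    exact G.sum fun j _ => ((ht j).mul (hN j)).cast (zero_add N)
  have hmem : (Pi.single i (1 : K) : ι → K) ∈ Submodule.span K (Set.range b) := by
    rw [hb]; exact Submodule.mem_top
  obtain ⟨s, hs⟩ := (Submodule.mem_span_range_iff_exists_fun K).1 hmem
  obtain ⟨M, hM⟩ := ent_bound (w := w) s
  obtain ⟨a, ha⟩ := hR.surj (-M)
  have hx : a • (Pi.single i (1 : K) : ι → K) ∈ Lat w b :=
    ⟨fun j => a * s j, fun j => (ha.g.mul (hM j)).cast (neg_add_cancel M), by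
      rw [← hs, smul_sum]
      exact sum_congr rfl fun j _ => smul_smul _ _ _⟩
  obtain ⟨t, ht, hmin⟩ := Int.exists_least_of_bdd
    (P := fun t => ∃ x ∈ Lat w b, (∀ j ∈ I, x j = 0) ∧ E w t (x i))
    ⟨N, fun z ⟨x, hx, _, hz⟩ => hz.le (hlow x hx)⟩
    ⟨-M, _, hx, fun j hj => by
      have hne : j ≠ i := fun h => hi (h ▸ hj)
      rw [Pi.smul_apply, Pi.single_eq_of_ne hne, smul_zero], by
      rw [Pi.smul_apply, Pi.single_eq_same, smul_eq_mul, mul_one]
      exact ha⟩
  refine ⟨t, fun x hx hx0 => ?_, ht⟩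
  rcases eq_or_ne (x i) 0 with h0 | h0
  · rw [h0]; exact G_zero t
  · obtain ⟨n, hn⟩ := exists_E (w := w) h0
    exact hn.g.mono (hmin n ⟨x, hx, hx0, hn⟩)

lemma ent_potential {α : Type*} [LinearOrder α] (t : Finset α → α → ℤ)
    (hex : ∀ I i j, i ∉ I → j ∉ I → i ≠ j →
      t (insert j I) i + t I j = t (insert i I) j + t I i) :
    ∃ c : Finset α → ℤ, c ∅ = 0 ∧ ∀ I i, i ∉ I → c (insert i I) - c I = t I i := by
  let c : Finset α → ℤ := fun I => ∑ i ∈ I, t (I.filter (· < i)) i
  have hA : ∀ (I : Finset α) (m : α), (∀ x ∈ I, x < m) → c (insert m I) = c I + t I m := by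
    intro I m hm
    have hmI : m ∉ I := fun h => lt_irrefl m (hm m h)
    have h1 : (insert m I).filter (· < m) = I := by
      rw [filter_insert, if_neg (lt_irrefl m), filter_true_of_mem hm]
    have h2 : ∀ i ∈ I, t ((insert m I).filter (· < i)) i = t (I.filter (· < i)) i := by
      intro i hi
      rw [filter_insert, if_neg (not_lt.2 (hm i hi).le)]
    simp only [c]
    rw [sum_insert hmI, h1, sum_congr rfl h2, add_comm]
  refine ⟨c, sum_empty, fun I => ?_⟩
  induction I using Finset.induction_on_max with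
  | empty =>
    intro i _
    rw [hA ∅ i (fun x hx => absurd hx (notMem_empty x))]
    omega
  | insert a s ha ih =>
    intro i hi
    have hia : i ≠ a := fun h => hi (h ▸ mem_insert_self a s)
    have his : i ∉ s := fun h => hi (mem_insert_of_mem h)
    have has : a ∉ s := fun h => lt_irrefl a (ha a h)
    rcases lt_or_gt_of_ne hia with h | h
    · have h1 := hA (insert i s) a (fun x hx => by
        rcases mem_insert.1 hx with rfl | hx
        · exact h
        · exact ha x hx)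
      have h2 := hA s a ha
      have h3 := ih i his
      have h4 := hex s i a his has hia
      rw [insert_comm i a s]
      omega
    · have h1 := hA (insert a s) i (fun x hx => by
        rcases mem_insert.1 hx with rfl | hx
        · exact h
        · exact (ha x hx).trans h)
      omega

theorem ent_exists {d : ℕ} {κ : Type*} [Fintype κ] (hR : Res w R) (b : κ → Fin d → K)
    (hb : Submodule.span K (Set.range b) = ⊤) : ∃ c, Ent w (Lat w b) c := by
  have h := ent_least hR b hb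
  choose! t ht using h
  obtain ⟨c, hc0, hc⟩ := ent_potential t fun I i j hi hj hij => by
    have hi' : i ∉ insert j I := by simp [hi, hij]
    have hj' : j ∉ insert i I := by simp [hj, hij.symm]
    exact le_antisymm
      (ent_exch_le (Lat_omod b) (ht I i hi) (ht I j hj) (ht _ i hi') (ht _ j hj'))
      (ent_exch_le (Lat_omod b) (ht I j hj) (ht I i hi) (ht _ j hj') (ht _ i hi'))
  refine ⟨c, hc0, fun I i hi => ?_⟩
  have h1 := ht I i hi
  rw [← hc I i hi] at h1
  exact h1

lemma ent_mono (h : Ent w L c) {I J : Finset ι} {i : ι} (hIJ : I ⊆ J) (hi : i ∉ J) :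
    c (insert i I) - c I ≤ c (insert i J) - c J := by
  obtain ⟨x, hx, hx0, hxi⟩ := (h.2 J i hi).2
  exact hxi.le ((h.2 I i fun h' => hi (hIJ h')).1 x hx fun j hj => hx0 j (hIJ hj))

lemma ent_super (h : Ent w L c) {S I : Finset ι} (hS : S ⊆ I) (T : Finset ι) :
    (∀ a ∈ T, a ∉ I) → c (S ∪ T) - c S ≤ c (I ∪ T) - c I := by
  induction T using Finset.induction_on with
  | empty => intro _; simp
  | insert a T ha ih =>
    intro hT
    have h1 := ih fun x hx => hT x (mem_insert_of_mem hx)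
    have h2 := ent_mono h (union_subset_union hS (Subset.refl T)) (i := a) (by
      rw [mem_union, not_or]
      exact ⟨hT a (mem_insert_self _ _), ha⟩)
    rw [union_insert, union_insert]
    omega

theorem Ent.mconvex (hL : OMod w L) (h : Ent w L c) : MConvex c := by
  refine ⟨h.1, fun I J => ?_, fun S i j k hi hj hk hij hik hjk => ?_⟩
  · have h1 := ent_super h (inter_subset_left : I ∩ J ⊆ I) (J \ I) fun a ha => (mem_sdiff.1 ha).2
    have h2 : I ∩ J ∪ J \ I = J := by
      rw [inter_comm, union_comm, sdiff_union_inter]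
    rw [h2, union_sdiff_self_eq_union] at h1
    omega
  · obtain ⟨e, he, he0, hej, hek⟩ := ent_common (h.2 S j hj) (h.2 S k hk)
    have hei := (h.2 S i hi).1 e he he0
    obtain ⟨y, hy, hy0, hyi⟩ := (h.2 (insert j S) i (by simp [hi, hij])).2
    have hy1 : ∀ l ∈ S, y l = 0 := fun l hl => hy0 l (mem_insert_of_mem hl)
    obtain ⟨h1, h2⟩ := ent_elim hL he hy he0 hy1 hek ((h.2 S k hk).1 y hy hy1)
    have h3 := (h.2 (insert k S) j (by simp [hj, hjk])).1 _ h1 h2
    have h4 := (h.2 (insert k S) i (by simp [hi, hik])).1 _ h1 h2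
    rw [Pi.sub_apply, Pi.smul_apply, smul_eq_mul] at h3 h4
    rw [hy0 j (mem_insert_self _ _), zero_sub] at h3
    have h5 := h3.neg.div hej
    rw [neg_neg, mul_div_cancel_right₀ _ hej.ne] at h5
    have h6 := h5.mul hei
    have h7 := (h4.mono (min_le_left _ _)).add (h6.mono (min_le_right _ _))
    rw [sub_add_cancel] at h7
    have h8 := hyi.le h7
    omega

lemma ent_trop_at [Fintype ι] (c : Finset ι → ℤ) (I : Finset ι) :
    ∃ N : ℤ, ∀ M, N ≤ M → trop c (fun i => if i ∈ I then M else -M) =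
      ∑ i ∈ I, (if i ∈ I then M else -M) - c I := by
  obtain ⟨N, hN⟩ := (Set.finite_range fun J => c I - c J).bddAbove
  refine ⟨N, fun M hM => le_antisymm (sup'_le _ _ fun J _ => ?_)
    (le_sup' (fun J => ∑ i ∈ J, (if i ∈ I then M else -M) - c J) (mem_univ I))⟩
  have hJ : c I - c J ≤ N := hN ⟨J, rfl⟩
  have h0 : c I - c I ≤ N := hN ⟨I, rfl⟩
  rcases eq_or_ne J I with rfl | hne
  · exact le_rfl
  have e1 : ∀ T : Finset ι, ∑ i ∈ T, (if i ∈ I then M else -M) =
      ∑ i, if i ∈ T then (if i ∈ I then M else -M) else 0 := fun T => by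
    rw [sum_ite_mem, univ_inter]
  obtain ⟨a, ha⟩ : ∃ a, ¬(a ∈ J ↔ a ∈ I) := not_forall.1 fun h => hne (Finset.ext h)
  have h1 := single_le_sum (s := (univ : Finset ι))
    (f := fun i => (if i ∈ I then (if i ∈ I then M else -M) else 0) -
      (if i ∈ J then (if i ∈ I then M else -M) else 0))
    (fun i _ => by split_ifs <;> omega) (mem_univ a)
  rw [sum_sub_distrib, ← e1 I, ← e1 J] at h1
  have h2 : M ≤ (if a ∈ I then (if a ∈ I then M else -M) else 0) -
      (if a ∈ J then (if a ∈ I then M else -M) else 0) := by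
    by_cases hI : a ∈ I <;> by_cases hJ' : a ∈ J
    · exact absurd (iff_of_true hJ' hI) ha
    · simp [hI, hJ']
    · simp [hI, hJ']
    · exact absurd (iff_of_false hJ' hI) ha
  have h3 := h2.trans h1
  show ∑ i ∈ J, (if i ∈ I then M else -M) - c J ≤ _
  linarith

theorem trop_inj [Fintype ι] {c c' : Finset ι → ℤ} (h : ∀ v, trop c v = trop c' v) :
    c = c' := by
  funext I
  obtain ⟨N, hN⟩ := ent_trop_at c I
  obtain ⟨N', hN'⟩ := ent_trop_at c' I
  have h1 := hN (max N N') (le_max_left _ _)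
  have h2 := hN' (max N N') (le_max_right _ _)
  rw [h, h2] at h1
  omega

end

end Pool.Agent.Lib.MP_90534d_pr
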