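import Pool.Agent.Lib.MP_90534d_pr.Basic

/-! Extension of a subspace by one vector, built one coordinate at a time. -/

namespace Pool.Agent.Lib.MP_90534d_pr

open Finset
open scoped WithZero

variable {K : Type*} [Field K] {w : Valuation K ℤᵐ⁰} {R : Finset K} {ι : Type*} [DecidableEq ι]
  {c : Finset ι → ℤ} {m : ℕ} {W : Submodule K (ι → K)} {x : ι → K}

lemma ext_two (hR : Res w R) : 2 ≤ R.card := by
  obtain ⟨r, hr, h0⟩ := hR.cov 0 (G_zero _)
  obtain ⟨s, hs, h1⟩ := hR.cov 1 G_one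
  refine one_lt_card.2 ⟨r, hr, s, hs, ?_⟩
  rintro rfl
  have := E_one.le (show G w 1 1 by simpa using h1.sub h0)
  omega

lemma ext_point (hR : Res w R) {α : Type*} (T : Finset α) (hT : T.card < R.card) (ξ : α → K)
    (ξ₀ : K) (r : ℤ) (h : ∀ a ∈ T, G w r (ξ a - ξ₀)) :
    ∃ ζ, G w r (ζ - ξ₀) ∧ ∀ a ∈ T, E w r (ζ - ξ a) := by
  classical
  obtain ⟨p, hp⟩ := hR.surj r
  have h1 : ∀ a, ∃ s, a ∈ T → s ∈ R ∧ G w 1 ((ξ a - ξ₀) / p - s) := by
    intro a
    by_cases ha : a ∈ T
    · obtain ⟨s, hs⟩ := hR.cov _ (((h a ha).div hp).cast (sub_self _))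
      exact ⟨s, fun _ => hs⟩
    · exact ⟨0, fun h => absurd h ha⟩
  choose ρ hρ using h1
  obtain ⟨s, hs, hs'⟩ := exists_mem_notMem_of_card_lt_card (card_image_le.trans_lt hT :
    (T.image ρ).card < R.card)
  refine ⟨ξ₀ + s * p, ?_, fun a ha => ?_⟩
  · rw [add_sub_cancel_left]
    exact ((hR.int s hs).mul hp.g).cast (zero_add _)
  · have e : ξ₀ + s * p - ξ a = (s - ρ a) * p - ((ξ a - ξ₀) / p - ρ a) * p := by
      have := hp.ne
      field_simp
      ring
    have h2 := hR.sep s hs _ (hρ a ha).1 fun h => hs' (mem_image.2 ⟨a, ha, h.symm⟩)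
    rw [e]
    exact ((h2.mul hp).cast (zero_add _)).sub ((hρ a ha).2.mul hp.g) (by omega)

lemma ext_point' (hR : Res w R) {α : Type*} (T : Finset α) (hT : T.card < R.card) (ξ : α → K)
    (r : α → ℤ) (a₀ : α) (h : ∀ a ∈ T, r a ≤ r a₀ ∧ G w (r a) (ξ a - ξ a₀) ∧
      (r a < r a₀ → E w (r a) (ξ a - ξ a₀))) : ∃ ζ, ∀ a ∈ T, E w (r a) (ζ - ξ a) := by
  obtain ⟨ζ, h0, h1⟩ := ext_point hR (T.filter fun a => r a = r a₀)
    ((card_filter_le _ _).trans_lt hT) ξ (ξ a₀) (r a₀) fun a ha => by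
      rw [mem_filter] at ha
      exact (h a ha.1).2.1.cast ha.2
  refine ⟨ζ, fun a ha => ?_⟩
  rcases (h a ha).1.eq_or_lt with e | hlt
  · exact (h1 a (mem_filter.2 ⟨ha, e⟩)).cast e.symm
  · have := ((h a ha).2.2 hlt).swap.add h0 hlt
    rwa [show ξ a₀ - ξ a + (ζ - ξ a₀) = ζ - ξ a by ring] at this

lemma At.congr {x' : ι → K} {I : Finset ι} {i : ι} (h : At w W c x I i)
    (hx : ∀ j ∈ insert i I, x' j = x j) : At w W c x' I i := by
  obtain ⟨y, hy, hyx, hE⟩ := h
  refine ⟨y, hy, fun j hj => ?_, ?_⟩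
  · rw [hyx j hj, hx j (mem_insert_of_mem hj)]
  · rwa [hx i (mem_insert_self _ _)]

lemma ext_at_iff (hW : Sp w c m W) {I : Finset ι} (hI : I.card = m) {y : ι → K} (hy : y ∈ W)
    (hyx : ∀ j ∈ I, y j = x j) (i : ι) :
    At w W c x I i ↔ E w (c (insert i I) - c I) (x i - y i) := by
  refine ⟨?_, fun h => ⟨y, hy, hyx, h⟩⟩
  rintro ⟨y', hy', hy'x, hE⟩
  have := hW.inj I hI _ (W.sub_mem hy hy') fun j hj => by simp [hyx j hj, hy'x j hj]
  rwa [sub_eq_zero.1 this]

lemma ext_rho (hW : Sp w c m W) {S : Finset ι} (hS : S.card + 1 = m) (x : ι → K) :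
    ∃ ρ : ι → K, ∀ a b, a ∉ S → b ∉ S → (At w W c x (insert a S) b ↔
      E w (c (insert b (insert a S)) - c (insert a S) - (c (insert b S) - c S)) (ρ b - ρ a)) := by
  by_cases h0 : ∃ k, k ∉ S
  swap
  · exact ⟨0, fun a _ ha => absurd ⟨a, ha⟩ h0⟩
  obtain ⟨k, hk⟩ := h0
  obtain ⟨y, hy, hyx⟩ := hW.surj (insert k S) (by rw [card_insert_of_notMem hk, hS]) x
  obtain ⟨u, hu, hu0, huE⟩ := hW.circ S hS
  refine ⟨fun a => (x a - y a) / u a, fun a b ha hb => ?_⟩
  have hua := (huE a ha).ne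
  have hub := (huE b hb).ne
  rw [ext_at_iff hW (by rw [card_insert_of_notMem ha, hS])
    (W.add_mem hy (W.smul_mem ((x a - y a) / u a) hu)) (fun j hj => by
      rcases mem_insert.1 hj with rfl | hj
      · simp [div_mul_cancel₀ _ hua]
      · simp [hu0 j hj, hyx j (mem_insert_of_mem hj)])]
  have e : x b - (y + ((x a - y a) / u a) • u) b =
      ((x b - y b) / u b - (x a - y a) / u a) * u b := by
    simp only [Pi.add_apply, Pi.smul_apply, smul_eq_mul]
    field_simp
    ring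
  rw [e]
  constructor
  · intro h
    have := h.div (huE b hb)
    rwa [mul_div_cancel_right₀ _ hub] at this
  · intro h
    exact (h.mul (huE b hb)).cast (by ring)

variable (w) in
/-- the condition for all ways to single out one element -/
def Tr (W : Submodule K (ι → K)) (c : Finset ι → ℤ) (x : ι → K) (J : Finset ι) : Prop :=
  ∀ i ∈ J, At w W c x (J.erase i) i

lemma Tr.at {I : Finset ι} {i : ι} (h : Tr w W c x (insert i I)) (hi : i ∉ I) :
    At w W c x I i := by
  have := h i (mem_insert_self _ _)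
  rwa [erase_insert hi] at this

lemma Tr.congr {x' : ι → K} {J : Finset ι} (h : Tr w W c x J) (hx : ∀ j ∈ J, x' j = x j) :
    Tr w W c x' J := fun i hi => (h i hi).congr (by rwa [insert_erase hi])

lemma At.tr (hW : Sp w c m W) {I : Finset ι} (hI : I.card = m) {i : ι} (hi : i ∉ I)
    (h : At w W c x I i) : Tr w W c x (insert i I) := by
  intro j hj
  rcases mem_insert.1 hj with rfl | hj
  · rwa [erase_insert hi]
  obtain ⟨S, hjS, rfl⟩ : ∃ S, j ∉ S ∧ I = insert j S :=
    ⟨I.erase j, notMem_erase _ _, (insert_erase hj).symm⟩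
  have hiS : i ∉ S := fun h' => hi (mem_insert_of_mem h')
  have hij : j ≠ i := fun h' => hi (h' ▸ mem_insert_self _ _)
  rw [card_insert_of_notMem hjS] at hI
  obtain ⟨ρ, hρ⟩ := ext_rho hW hI x
  rw [insert_comm, erase_insert (by simp [hij, hjS]), hρ i j hiS hjS]
  rw [hρ j i hjS hiS, insert_comm] at h
  exact h.swap.cast (by ring)

/-- the triangle rule -/
lemma ext_tri (hW : Sp w c m W) (hc : MConvex c) {S : Finset ι} (hS : S.card + 1 = m) {a b k : ι}
    (ha : a ∉ S) (hb : b ∉ S) (hk : k ∉ S) (hab : a ≠ b) (hak : a ≠ k) (hbk : b ≠ k)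
    (h1 : Tr w W c x (insert a (insert k S))) (h2 : Tr w W c x (insert b (insert k S)))
    (hne : c (insert a (insert k S)) + c (insert b S) ≠
      c (insert b (insert k S)) + c (insert a S)) : Tr w W c x (insert a (insert b S)) := by
  obtain ⟨ρ, hρ⟩ := ext_rho hW hS x
  have e1 := (hρ k a hk ha).1 (h1.at (by simp [ha, hak]))
  have e2 := (hρ k b hk hb).1 (h2.at (by simp [hb, hbk]))
  refine At.tr hW (by rw [card_insert_of_notMem hb, hS]) (by simp [ha, hab]) ((hρ b a hb ha).2 ?_)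
  have t1 := hc.2.2 S a b k ha hb hk hab hak hbk
  have t2 := hc.2.2 S a k b ha hk hb hak hab hbk.symm
  have t3 := hc.2.2 S b k a hb hk ha hbk hab.symm hak.symm
  rw [insert_comm k b] at t2
  rw [insert_comm k a, insert_comm b a] at t3
  rcases lt_or_gt_of_ne hne with h | h
  · have := e1.sub e2.g (by omega)
    rw [sub_sub_sub_cancel_right] at this
    exact this.cast (by omega)
  · have := (e2.sub e1.g (by omega)).swap
    rw [sub_sub_sub_cancel_right] at this
    exact this.cast (by omega)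

/-- a new coordinate -/
lemma ext_add (hR : Res w R) (hW : Sp w c m W) (hc : MConvex c) (x : ι → K) (z : ι)
    (F : Finset (Finset ι)) (hF : F.card < R.card) (I₀ : Finset ι)
    (h : ∀ I ∈ F, I.card = m ∧ z ∉ I ∧ c (insert z I) - c I ≤ c (insert z I₀) - c I₀ ∧
      (I = I₀ ∨ ∃ S a b, a ∉ S ∧ b ∉ S ∧ a ≠ b ∧ z ≠ a ∧ I₀ = insert a S ∧ I = insert b S ∧
        Tr w W c x (insert b (insert a S)))) :
    ∃ ζ, ∀ I ∈ F, Tr w W c (Function.update x z ζ) (insert z I) := by
  have hY : ∀ I : Finset ι, ∃ y, I.card = m → y ∈ W ∧ ∀ j ∈ I, y j = x j := by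
    intro I
    by_cases hI : I.card = m
    · obtain ⟨y, hy⟩ := hW.surj I hI x
      exact ⟨y, fun _ => hy⟩
    · exact ⟨0, fun h => absurd h hI⟩
  choose Y hY using hY
  obtain ⟨ζ, hζ⟩ := ext_point' hR F hF (fun I => Y I z) (fun I => c (insert z I) - c I) I₀ (by
    intro I hI
    obtain ⟨hIm, hz, hr, h⟩ := h I hI
    refine ⟨hr, ?_⟩
    rcases h with rfl | ⟨S, a, b, ha, hb, hab, hza, rfl, rfl, hT⟩
    · exact ⟨by simpa using G_zero _, fun h => absurd h (lt_irrefl _)⟩
    have hzS : z ∉ S := fun h' => hz (mem_insert_of_mem h')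
    have hzb : z ≠ b := fun h' => hz (h' ▸ mem_insert_self _ _)
    have hS : S.card + 1 = m := by rwa [card_insert_of_notMem hb] at hIm
    have hA : (insert a S).card = m := by rw [card_insert_of_notMem ha, hS]
    obtain ⟨u, hu, hu0, huE⟩ := hW.circ S hS
    have e1 := (ext_at_iff hW hA (hY _ hA).1 (hY _ hA).2 b).1 (hT.at (by simp [hb, hab.symm]))
    have h1 : Y (insert b S) - Y (insert a S) - ((x b - Y (insert a S) b) / u b) • u = 0 := by
      refine hW.inj _ hIm _ (W.sub_mem (W.sub_mem (hY _ hIm).1 (hY _ hA).1) (W.smul_mem _ hu))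
        fun j hj => ?_
      rcases mem_insert.1 hj with rfl | hj'
      · simp [div_mul_cancel₀ _ (huE j hb).ne, (hY _ hIm).2 j hj]
      · simp [hu0 j hj', (hY _ hIm).2 j hj, (hY _ hA).2 j (mem_insert_of_mem hj')]
    have h2 : Y (insert b S) z - Y (insert a S) z = (x b - Y (insert a S) b) / u b * u z := by
      simpa [sub_eq_zero] using congrFun h1 z
    have e2 := (e1.div (huE b hb)).mul (huE z hzS)
    rw [← h2] at e2
    have t1 := hc.2.2 S b a z hb ha hzS hab.symm hzb.symm hza.symm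
    have t2 := hc.2.2 S z b a hzS hb ha hzb hza hab.symm
    rw [insert_comm b z, insert_comm a z] at t1
    exact ⟨e2.g.mono (by omega), fun hlt => e2.cast (by omega)⟩)
  refine ⟨ζ, fun I hI => ?_⟩
  obtain ⟨hIm, hz, -⟩ := h I hI
  refine At.tr hW hIm hz ⟨Y I, (hY I hIm).1, fun j hj => ?_, ?_⟩
  · rw [Function.update_of_ne (ne_of_mem_of_not_mem hj hz), (hY I hIm).2 j hj]
  · rw [Function.update_self]; exact hζ I hI

lemma ext_easy (hR : Res w R) (hW : Sp w c m W) (hc : MConvex c) (A : Finset ι)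
    (h1 : m ≤ 1 ∨ A.card ≤ m + 2) (h2 : A.card ≤ R.card) :
    ∃ x : ι → K, ∀ J ⊆ A, J.card = m + 1 → Tr w W c x J := by
  induction A using Finset.induction_on with
  | empty => exact ⟨0, fun J hJ h => by simp [subset_empty.1 hJ] at h⟩
  | insert z A hz ih =>
    rw [card_insert_of_notMem hz] at h1 h2
    obtain ⟨x, hx⟩ := ih (by omega) (by omega)
    have hF : (powersetCard m A).card < R.card := by
      have := ext_two hR
      rw [card_powersetCard]
      rcases Nat.lt_or_ge A.card m with h | h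
      · rw [Nat.choose_eq_zero_of_lt h]; omega
      rcases h.eq_or_lt with h | h
      · rw [← h, Nat.choose_self]; omega
      rcases h1 with h1 | h1
      · rcases Nat.le_one_iff_eq_zero_or_eq_one.1 h1 with rfl | rfl
        · rw [Nat.choose_zero_right]; omega
        · rw [Nat.choose_one_right]; omega
      · rw [show A.card = m + 1 by omega, Nat.choose_succ_self_right]; omega
    obtain ⟨ζ, hζ⟩ : ∃ ζ, ∀ I ∈ powersetCard m A,
        Tr w W c (Function.update x z ζ) (insert z I) := by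
      rcases (powersetCard m A).eq_empty_or_nonempty with h | h
      · exact ⟨0, by simp [h]⟩
      obtain ⟨I₀, hI₀, hmax⟩ := exists_max_image _ (fun I => c (insert z I) - c I) h
      refine ext_add hR hW hc x z _ hF I₀ fun I hI => ?_
      refine ⟨(mem_powersetCard.1 hI).2, fun h => hz ((mem_powersetCard.1 hI).1 h), hmax I hI, ?_⟩
      rw [mem_powersetCard] at hI hI₀
      by_cases hII : I = I₀
      · exact Or.inl hII
      right
      have c1 : (I \ I₀).card = 1 := by
        have b1 : (I \ I₀).card ≤ m := hI.2 ▸ card_le_card sdiff_subset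
        have b2 : (I \ I₀).card ≤ (A \ I₀).card := card_le_card (sdiff_subset_sdiff hI.1 le_rfl)
        have b3 := card_sdiff_add_card_eq_card hI₀.1
        have b4 : (I \ I₀).card ≠ 0 := fun h => hII (eq_of_subset_of_card_le
          (sdiff_eq_empty_iff_subset.1 (card_eq_zero.1 h)) (by omega))
        omega
      have c2 : (I₀ \ I).card = 1 := by rw [← c1]; exact card_sdiff_comm (by omega)
      obtain ⟨b, hb⟩ := card_eq_one.1 c1
      obtain ⟨a, ha⟩ := card_eq_one.1 c2
      have hb' := mem_sdiff.1 (hb ▸ mem_singleton_self b)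
      have ha' := mem_sdiff.1 (ha ▸ mem_singleton_self a)
      have e1 : I₀ = insert a (I ∩ I₀) := by
        rw [insert_eq, ← ha, inter_comm, sdiff_union_inter]
      have e2 : I = insert b (I ∩ I₀) := by rw [insert_eq, ← hb, sdiff_union_inter]
      refine ⟨I ∩ I₀, a, b, by simp [ha'.2], by simp [hb'.2], fun h => ha'.2 (h ▸ hb'.1),
        fun h => hz (h ▸ hI₀.1 ha'.1), e1, e2, hx _ ?_ ?_⟩
      · rw [← e1]; exact insert_subset (hI.1 hb'.1) hI₀.1
      · rw [← e1, card_insert_of_notMem hb'.2, hI₀.2]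
    refine ⟨Function.update x z ζ, fun J hJ hc' => ?_⟩
    by_cases hzJ : z ∈ J
    · rw [← insert_erase hzJ]
      refine hζ _ (mem_powersetCard.2 ⟨subset_insert_iff.1 hJ, ?_⟩)
      rw [card_erase_of_mem hzJ, hc']; rfl
    · exact (hx J ((subset_insert_iff_of_notMem hzJ).1 hJ) hc').congr fun j hj =>
        Function.update_of_ne (ne_of_mem_of_not_mem hj hzJ) _ _

end Pool.Agent.Lib.MP_90534d_pr
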