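import Mathlib

/-! The choice of labels on five elements: a statement about integers only. -/

namespace Pool.Agent.Lib.MP_90534d_pr

variable {ι : Type*}

/-- five distinct elements -/
def D5 (a b c d e : ι) : Prop :=
  a ≠ b ∧ a ≠ c ∧ a ≠ d ∧ a ≠ e ∧ b ≠ c ∧ b ≠ d ∧ b ≠ e ∧ c ≠ d ∧ c ≠ e ∧ d ≠ e

/-- symmetric functions of pairs and triples with the three term relation -/
structure Lab (p : ι → ι → ℤ) (e : ι → ι → ι → ℤ) : Prop where
  ps : ∀ a b, p a b = p b a
  e1 : ∀ a b k, e a b k = e b a k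
  e2 : ∀ a b k, e a b k = e a k b
  R : ∀ o a b k, a ≠ o → b ≠ o → k ≠ o → a ≠ b → a ≠ k → b ≠ k →
    min (e a k o + p b o) (e b k o + p a o) ≤ e a b o + p k o

variable {p : ι → ι → ℤ} {e : ι → ι → ι → ℤ}

variable (p e) in
/-- the triangle rule applies -/
def NT (o z f k : ι) : Prop := e z k o + p f o ≠ e f k o + p z o

variable (p e) in
/-- good labels -/
def Sh (z n l m f : ι) : Prop :=
  D5 z n l m f ∧ e z m l - p m l ≤ e z n l - p n l ∧ e z m n - p m n ≤ e z n l - p n l ∧
    (e z f n - p f n ≤ e z n l - p n l ∨ NT p e n z f l ∨ NT p e n z f m) ∧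
    (NT p e l z f n ∨ NT p e l z f m ∨ NT p e f z l n) ∧
    (NT p e m z f n ∨ NT p e m z f l ∨ NT p e f z m n)

lemma Lab.FP (h : Lab p e) {o a b k l : ι} (D : D5 o a b k l) :
    min (e a k o + e b l o) (e a l o + e b k o) ≤ e a b o + e k l o := by
  have r1 := h.R o a b k (by grind [D5]) (by grind [D5]) (by grind [D5]) (by grind [D5])
    (by grind [D5]) (by grind [D5])
  have r2 := h.R o a b l (by grind [D5]) (by grind [D5]) (by grind [D5]) (by grind [D5])
    (by grind [D5]) (by grind [D5])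
  have r3 := h.R o k l a (by grind [D5]) (by grind [D5]) (by grind [D5]) (by grind [D5])
    (by grind [D5]) (by grind [D5])
  have r4 := h.R o k l b (by grind [D5]) (by grind [D5]) (by grind [D5]) (by grind [D5])
    (by grind [D5]) (by grind [D5])
  simp only [h.ps, h.e1, h.e2] at r1 r2 r3 r4 ⊢
  omega

lemma Lab.R5 (h : Lab p e) {o a b k l : ι} (D : D5 o a b k l) :
    min (e a k o + p b o) (e b k o + p a o) ≤ e a b o + p k o :=
  h.R o a b k (by grind [D5]) (by grind [D5]) (by grind [D5]) (by grind [D5])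
    (by grind [D5]) (by grind [D5])

lemma Lab.c1 (h : Lab p e) {z n l m f : ι} (D : D5 z n l m f)
    (h1 : e z l n + e f m n ≠ e z m n + e f l n) (h2 : e z n l + e f m l ≠ e z m l + e f n l)
    (h3 : e z n m + e f l m ≠ e z l m + e f n m) : ∃ z n l m f, Sh p e z n l m f := by
  by_cases c1 : e z m l - p m l ≤ e z n l - p n l ∧ e z m n - p m n ≤ e z n l - p n l
  · refine ⟨z, n, l, m, f, D, ?_⟩
    simp only [NT, h.ps, h.e1, h.e2] at h1 h2 h3 c1 ⊢
    omega
  by_cases c2 : e z m l - p m l ≤ e z m n - p m n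
  · refine ⟨z, n, m, l, f, by grind [D5], ?_⟩
    simp only [NT, h.ps, h.e1, h.e2] at h1 h2 h3 c1 c2 ⊢
    omega
  · refine ⟨z, l, m, n, f, by grind [D5], ?_⟩
    simp only [NT, h.ps, h.e1, h.e2] at h1 h2 h3 c1 c2 ⊢
    omega

lemma Lab.c2 (h : Lab p e) {z n l m f : ι} (D : D5 z n l m f)
    (r1 : e z l m - p l m ≤ e z n m - p n m)
    (t1 : e z f n + e l m n = e z l n + e f m n) (t2 : e z f n + e l m n = e z m n + e f l n)
    (h2 : e z n l + e f m l ≠ e z m l + e f n l) (h3 : e z n m + e f l m ≠ e z l m + e f n m) :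
    ∃ z n l m f, Sh p e z n l m f := by
  have r2 := h.R5 (o := n) (a := l) (b := m) (k := f) (l := z) (by grind [D5])
  by_cases c1 : e z m n - p m n ≤ e z n l - p n l
  · refine ⟨z, n, l, m, f, D, ?_⟩
    simp only [NT, h.ps, h.e1, h.e2] at r1 r2 t1 t2 h2 h3 c1 ⊢
    omega
  · refine ⟨z, n, m, l, f, by grind [D5], ?_⟩
    simp only [NT, h.ps, h.e1, h.e2] at r1 r2 t1 t2 h2 h3 c1 ⊢
    omega

lemma Lab.t1 (h : Lab p e) {a b g k f : ι} (D : D5 a b g k f)
    (s : e a k g + e b f g < e a b g + e k f g)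
    (t1 : e a f b + e g k b = e a g b + e f k b) (t2 : e a f b + e g k b = e a k b + e f g b) :
    ∃ z n l m f, Sh p e z n l m f := by
  have f1 := h.FP (o := g) (a := a) (b := k) (k := b) (l := f) (by grind [D5])
  have f2 := h.FP (o := g) (a := a) (b := f) (k := b) (l := k) (by grind [D5])
  have f3 := h.FP (o := k) (a := a) (b := g) (k := b) (l := f) (by grind [D5])
  have f4 := h.FP (o := k) (a := a) (b := f) (k := b) (l := g) (by grind [D5])
  have r := h.R5 (o := k) (a := a) (b := b) (k := g) (l := f) (by grind [D5])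
  by_cases c : e a g k - p g k ≤ e a b k - p b k
  · refine h.c2 D c t1 t2 ?_ ?_ <;> simp only [h.ps, h.e1, h.e2] at s t1 t2 ⊢ <;> omega
  · refine h.c2 (z := b) (n := a) (l := g) (m := k) (f := f) (by grind [D5]) ?_ ?_ ?_ ?_ ?_ <;>
      simp only [h.ps, h.e1, h.e2] at s t1 t2 f1 f2 f3 f4 r c ⊢ <;> omega

lemma Lab.m1 (h : Lab p e) {a b g k f : ι} (D : D5 a b g k f)
    (s : e a k g + e b f g < e a b g + e k f g)
    (H1 : e a f k + e b g k ≤ e a b k + e f g k) (H2 : e a f b + e g k b ≤ e a g b + e f k b) :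
    ∃ z n l m f, Sh p e z n l m f := by
  by_cases c1 : e a g b + e f k b = e a k b + e f g b
  · have f1 := h.FP (o := b) (a := a) (b := f) (k := g) (l := k) (by grind [D5])
    refine h.t1 D s ?_ ?_ <;> simp only [h.ps, h.e1, h.e2] at f1 c1 H2 ⊢ <;> omega
  by_cases c2 : e a b k + e f g k = e a g k + e f b k
  · have f1 := h.FP (o := k) (a := a) (b := f) (k := b) (l := g) (by grind [D5])
    refine h.t1 (a := f) (b := k) (g := g) (k := b) (f := a) (by grind [D5]) ?_ ?_ ?_ <;>
      simp only [h.ps, h.e1, h.e2] at f1 c2 H1 s ⊢ <;> omega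
  refine h.c1 D c1 ?_ c2
  simp only [h.ps, h.e1, h.e2] at s ⊢
  omega

lemma Lab.m2 (h : Lab p e) {a b g k f : ι} (D : D5 a b g k f)
    (s : e a k g + e b f g < e a b g + e k f g) : ∃ z n l m f, Sh p e z n l m f := by
  have f1 := h.FP (o := g) (a := a) (b := k) (k := b) (l := f) (by grind [D5])
  have f2 := h.FP (o := g) (a := a) (b := f) (k := b) (l := k) (by grind [D5])
  by_cases H1 : e a f k + e b g k ≤ e a b k + e f g k
  · by_cases H2 : e a f b + e g k b ≤ e a g b + e f k b
    · exact h.m1 D s H1 H2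
    · have f3 := h.FP (o := b) (a := a) (b := g) (k := f) (l := k) (by grind [D5])
      have f4 := h.FP (o := f) (a := a) (b := g) (k := b) (l := k) (by grind [D5])
      refine h.m1 (a := a) (b := b) (g := g) (k := f) (f := k) (by grind [D5]) ?_ ?_ ?_ <;>
        simp only [h.ps, h.e1, h.e2] at f1 f2 f3 f4 H2 s ⊢ <;> omega
  · have f3 := h.FP (o := k) (a := a) (b := b) (k := f) (l := g) (by grind [D5])
    have f4 := h.FP (o := a) (a := b) (b := k) (k := f) (l := g) (by grind [D5])
    refine h.m1 (a := b) (b := a) (g := g) (k := k) (f := f) (by grind [D5]) ?_ ?_ ?_ <;>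
      simp only [h.ps, h.e1, h.e2] at f1 f2 f3 f4 H1 s ⊢ <;> omega

variable (e) in
/-- no quartet is resolved -/
def Star : Prop := ∀ g a b k f, D5 g a b k f → e a b g + e k f g = e a k g + e b f g

lemma Lab.c3 (h : Lab p e) (hs : Star e) {z o a b k : ι} (D : D5 z o a b k)
    (sm : e a z o + p b o < e a b o + p z o) (l1 : e z a b - p a b ≤ e z o b - p o b)
    (l2 : e z a k - p a k ≤ e z o b - p o b) (l3 : e z b k - p b k ≤ e z o b - p o b) :
    ∃ z n l m f, Sh p e z n l m f := by
  have r1 := h.R5 (o := o) (a := b) (b := z) (k := a) (l := k) (by grind [D5])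
  have r2 := h.R5 (o := o) (a := a) (b := z) (k := b) (l := k) (by grind [D5])
  have r3 := h.R5 (o := o) (a := b) (b := z) (k := k) (l := a) (by grind [D5])
  have r4 := h.R5 (o := o) (a := k) (b := z) (k := b) (l := a) (by grind [D5])
  have r5 := h.R5 (o := a) (a := b) (b := k) (k := o) (l := z) (by grind [D5])
  have s1 := hs o z a b k (by grind [D5])
  have s2 := hs o z a k b (by grind [D5])
  have s3 := hs a z o b k (by grind [D5])
  have s4 := hs a z o k b (by grind [D5])
  by_cases c : e z o b - p o b ≤ e z a b - p a b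
  · refine ⟨z, a, b, k, o, by grind [D5], ?_⟩
    simp only [NT, h.ps, h.e1, h.e2] at r1 r2 r3 r4 r5 s1 s2 s3 s4 sm l1 l2 l3 c ⊢
    omega
  · refine ⟨z, a, k, b, o, by grind [D5], ?_⟩
    simp only [NT, h.ps, h.e1, h.e2] at r1 r2 r3 r4 r5 s1 s2 s3 s4 sm l1 l2 l3 c ⊢
    omega

lemma Lab.high (h : Lab p e) (hs : Star e) {z o x y u : ι} (D : D5 z o x y u)
    (h1 : e z o x - p o x < e z x y - p x y) (h2 : e z o y - p o y < e z x y - p x y)
    (h3 : e z o u - p o u < e z x y - p x y) : ∃ z n l m f, Sh p e z n l m f := by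
  have r1 := h.R5 (o := y) (a := x) (b := o) (k := u) (l := z) (by grind [D5])
  have r2 := h.R5 (o := y) (a := x) (b := o) (k := z) (l := u) (by grind [D5])
  have r3 := h.R5 (o := u) (a := x) (b := o) (k := z) (l := y) (by grind [D5])
  have r4 := h.R5 (o := x) (a := y) (b := o) (k := u) (l := z) (by grind [D5])
  have s1 := hs o z x y u (by grind [D5])
  have s2 := hs o z x u y (by grind [D5])
  have s3 := hs x z o y u (by grind [D5])
  have s4 := hs x z o u y (by grind [D5])
  have s5 := hs y z o x u (by grind [D5])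
  have s6 := hs y z o u x (by grind [D5])
  have s7 := hs u z o x y (by grind [D5])
  have s8 := hs u z o y x (by grind [D5])
  refine h.c3 hs (z := o) (o := x) (a := u) (b := y) (k := z) (by grind [D5]) ?_ ?_ ?_ ?_ <;>
    simp only [h.ps, h.e1, h.e2] at r1 r2 r3 r4 s1 s2 s3 s4 s5 s6 s7 s8 h1 h2 h3 ⊢ <;> omega

theorem Lab.main (h : Lab p e) : (∃ z n l m f, Sh p e z n l m f) ∨
    ∀ o a b z k, D5 o a b z k → e a b o + p z o = e a z o + p b o := by
  by_cases hs : ∃ a b g k f, D5 a b g k f ∧ e a k g + e b f g < e a b g + e k f g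
  · obtain ⟨a, b, g, k, f, D, s⟩ := hs
    exact Or.inl (h.m2 D s)
  push Not at hs
  have hS : Star e := by
    intro g a b k f D
    have h1 := hs a b g k f (by grind [D5])
    have h2 := hs a k g b f (by grind [D5])
    omega
  by_cases hm : ∃ z o a b k, D5 z o a b k ∧ e a z o + p b o < e a b o + p z o
  · left
    obtain ⟨z, o, a, b, k, D, sm⟩ := hm
    have r1 := h.R5 (o := o) (a := b) (b := z) (k := a) (l := k) (by grind [D5])
    have r2 := h.R5 (o := o) (a := a) (b := z) (k := b) (l := k) (by grind [D5])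
    have r3 := h.R5 (o := o) (a := b) (b := z) (k := k) (l := a) (by grind [D5])
    have r4 := h.R5 (o := o) (a := k) (b := z) (k := b) (l := a) (by grind [D5])
    have s1 := hS o z a b k (by grind [D5])
    have s2 := hS o z a k b (by grind [D5])
    have e1 : e z o a - p o a = e z o b - p o b ∧ e z o k - p o k = e z o b - p o b := by
      simp only [h.ps, h.e1, h.e2] at r1 r2 r3 r4 s1 s2 sm ⊢
      omega
    by_cases l1 : e z a b - p a b ≤ e z o b - p o b
    · by_cases l2 : e z a k - p a k ≤ e z o b - p o b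
      · by_cases l3 : e z b k - p b k ≤ e z o b - p o b
        · exact h.c3 hS D sm l1 l2 l3
        · exact h.high hS (z := z) (o := o) (x := b) (y := k) (u := a) (by grind [D5])
            (by omega) (by omega) (by omega)
      · exact h.high hS (z := z) (o := o) (x := a) (y := k) (u := b) (by grind [D5])
          (by omega) (by omega) (by omega)
    · exact h.high hS D (by omega) (by omega) (by omega)
  · right
    push Not at hm
    intro o a b z k D
    have h1 := hm z o a b k (by grind [D5])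
    have h2 := hm b o a z k (by grind [D5])
    omega

end Pool.Agent.Lib.MP_90534d_pr
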