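import Pool.Agent.Lib.MP_90534d_pr.Ext
import Pool.Agent.Lib.MP_90534d_pr.Label

/-! The middle step in dimension five, and all steps in dimension at most five. -/

namespace Pool.Agent.Lib.MP_90534d_pr

open Finset
open scoped WithZero

variable {K : Type*} [Field K] {w : Valuation K ℤᵐ⁰} {R : Finset K}

section
variable {ι : Type*} [DecidableEq ι] {c : Finset ι → ℤ} {W : Submodule K (ι → K)}

lemma five_lab (hc : MConvex c) : Lab (fun a b => c {a, b}) fun a b k => c {a, b, k} :=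
  ⟨fun a b => by rw [pair_comm], fun a b k => by rw [insert_comm], fun a b k => by
    rw [pair_comm b k], fun o a b k ha hb hk => hc.2.2 {o} a b k (by simpa using ha)
      (by simpa using hb) (by simpa using hk)⟩

lemma five_tri (hW : Sp w c 2 W) (hc : MConvex c) {x : ι → K} {o z f k : ι} (h1 : z ≠ o)
    (h2 : f ≠ o) (h3 : k ≠ o) (h4 : z ≠ f) (h5 : z ≠ k) (h6 : f ≠ k) (t1 : Tr w W c x {z, k, o})
    (t2 : Tr w W c x {f, k, o})
    (h : NT (fun a b => c {a, b}) (fun a b k => c {a, b, k}) o z f k) : Tr w W c x {z, f, o} :=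
  ext_tri hW hc (S := {o}) (by simp) (by simpa using h1) (by simpa using h2) (by simpa using h3)
    h4 h5 h6 t1 t2 h

lemma five_shape (hR : Res w R) (hq : 5 ≤ R.card) (hW : Sp w c 2 W) (hc : MConvex c)
    {z n l m f : ι} (h : Sh (fun a b => c {a, b}) (fun a b k => c {a, b, k}) z n l m f) :
    ∃ x : ι → K, ∀ J ⊆ {z, n, l, m, f}, J.card = 3 → Tr w W c x J := by
  obtain ⟨D, r1, r2, a1, a2, a3⟩ := h
  obtain ⟨d1, d2, d3, d4, d5, d6, d7, d8, d9, d10⟩ := D
  obtain ⟨x, hx⟩ := ext_easy hR hW hc {n, l, m, f} (Or.inr card_le_four)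
    (card_le_four.trans (by omega))
  have hx3 : ∀ a b k : ι, a ∈ ({n, l, m, f} : Finset ι) → b ∈ ({n, l, m, f} : Finset ι) →
      k ∈ ({n, l, m, f} : Finset ι) → a ≠ b → a ≠ k → b ≠ k → Tr w W c x {a, b, k} :=
    fun a b k ha hb hk h1 h2 h3 => hx _ (insert_subset ha (insert_subset hb
      (singleton_subset_iff.2 hk))) (card_eq_three.2 ⟨a, b, k, h1, h2, h3, rfl⟩)
  obtain ⟨ζ, hζ⟩ := ext_add hR hW hc x z (({{n, l}, {m, l}, {m, n}, {f, n}} :
    Finset (Finset ι)).filter fun I => c (insert z I) - c I ≤ c {z, n, l} - c {n, l})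
    (((card_filter_le _ _).trans card_le_four).trans_lt (by omega)) {n, l} (by
      intro I hI
      rw [mem_filter] at hI
      obtain ⟨hI, hr⟩ := hI
      simp only [mem_insert, mem_singleton] at hI
      rcases hI with rfl | rfl | rfl | rfl
      · exact ⟨card_pair d5, by simp [d1, d2], hr, Or.inl rfl⟩
      · exact ⟨card_pair d8.symm, by simp [d2, d3], hr, Or.inr ⟨{l}, n, m, by simpa using d5,
          by simpa using d8.symm, d6, d1, rfl, rfl,
          hx3 m n l (by simp) (by simp) (by simp) d6.symm d8.symm d5⟩⟩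
      · exact ⟨card_pair d6.symm, by simp [d1, d3], hr, Or.inr ⟨{n}, l, m, by simpa using d5.symm,
          by simpa using d6.symm, d8, d2, pair_comm _ _, rfl,
          hx3 m l n (by simp) (by simp) (by simp) d8.symm d6.symm d5.symm⟩⟩
      · exact ⟨card_pair d7.symm, by simp [d1, d4], hr, Or.inr ⟨{n}, l, f, by simpa using d5.symm,
          by simpa using d7.symm, d9, d2, pair_comm _ _, rfl,
          hx3 f l n (by simp) (by simp) (by simp) d9.symm d7.symm d5.symm⟩⟩)
  have hz : z ∉ ({n, l, m, f} : Finset ι) := by simp [d1, d2, d3, d4]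
  have hx' : ∀ J ⊆ {n, l, m, f}, J.card = 3 → Tr w W c (Function.update x z ζ) J :=
    fun J hJ h3 => (hx J hJ h3).congr fun j hj =>
      Function.update_of_ne (ne_of_mem_of_not_mem (hJ hj) hz) _ _
  generalize Function.update x z ζ = y at hζ hx'
  have hy3 : ∀ a b k : ι, a ∈ ({n, l, m, f} : Finset ι) → b ∈ ({n, l, m, f} : Finset ι) →
      k ∈ ({n, l, m, f} : Finset ι) → a ≠ b → a ≠ k → b ≠ k → Tr w W c y {a, b, k} :=
    fun a b k ha hb hk h1 h2 h3 => hx' _ (insert_subset ha (insert_subset hb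
      (singleton_subset_iff.2 hk))) (card_eq_three.2 ⟨a, b, k, h1, h2, h3, rfl⟩)
  have nl : Tr w W c y {z, n, l} := hζ _ (mem_filter.2 ⟨by simp, le_rfl⟩)
  have ml : Tr w W c y {z, m, l} := hζ _ (mem_filter.2 ⟨by simp, r1⟩)
  have mn : Tr w W c y {z, m, n} := hζ _ (mem_filter.2 ⟨by simp, r2⟩)
  have ln : Tr w W c y {z, l, n} := by rwa [pair_comm l n]
  have lm : Tr w W c y {z, l, m} := by rwa [pair_comm l m]
  have nm : Tr w W c y {z, n, m} := by rwa [pair_comm n m]
  have fn : Tr w W c y {z, f, n} := by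
    rcases a1 with a | a | a
    · exact hζ _ (mem_filter.2 ⟨by simp, a⟩)
    · exact five_tri hW hc d1 d7.symm d5.symm d4 d2 d9.symm ln
        (hy3 f l n (by simp) (by simp) (by simp) d9.symm d7.symm d5.symm) a
    · exact five_tri hW hc d1 d7.symm d6.symm d4 d3 d10.symm mn
        (hy3 f m n (by simp) (by simp) (by simp) d10.symm d7.symm d6.symm) a
  have nf : Tr w W c y {z, n, f} := by rwa [pair_comm n f]
  have fl : Tr w W c y {z, f, l} := by
    rcases a2 with a | a | a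
    · exact five_tri hW hc d2 d9.symm d5 d4 d1 d7.symm nl
        (hy3 f n l (by simp) (by simp) (by simp) d7.symm d9.symm d5) a
    · exact five_tri hW hc d2 d9.symm d8.symm d4 d3 d10.symm ml
        (hy3 f m l (by simp) (by simp) (by simp) d10.symm d9.symm d8.symm) a
    · rw [pair_comm f l]
      exact five_tri hW hc d4 d9 d7 d2 d1 d5.symm nf
        (hy3 l n f (by simp) (by simp) (by simp) d5.symm d9 d7) a
  have fm : Tr w W c y {z, f, m} := by
    rcases a3 with a | a | a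
    · exact five_tri hW hc d3 d10.symm d6 d4 d1 d7.symm nm
        (hy3 f n m (by simp) (by simp) (by simp) d7.symm d10.symm d6) a
    · exact five_tri hW hc d3 d10.symm d8 d4 d2 d9.symm lm
        (hy3 f l m (by simp) (by simp) (by simp) d9.symm d10.symm d8) a
    · rw [pair_comm f m]
      exact five_tri hW hc d4 d10 d7 d3 d1 d6.symm nf
        (hy3 m n f (by simp) (by simp) (by simp) d6.symm d10 d7) a
  have lf : Tr w W c y {z, l, f} := by rwa [pair_comm l f]
  have mf : Tr w W c y {z, m, f} := by rwa [pair_comm m f]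
  refine ⟨y, fun J hJ h3 => ?_⟩
  by_cases hzJ : z ∈ J
  · obtain ⟨a, b, hab, hI⟩ := card_eq_two.1 (show (J.erase z).card = 2 by
      rw [card_erase_of_mem hzJ, h3])
    have hA := subset_insert_iff.1 hJ
    rw [← insert_erase hzJ, hI]
    rw [hI] at hA
    have ha := hA (mem_insert_self _ _)
    have hb := hA (mem_insert_of_mem (mem_singleton_self _))
    simp only [mem_insert, mem_singleton] at ha hb
    rcases ha with rfl | rfl | rfl | rfl <;> rcases hb with rfl | rfl | rfl | rfl <;>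
      first | assumption | exact absurd rfl hab
  · exact hx' J ((subset_insert_iff_of_notMem hzJ).1 hJ) h3

/-- the generic case: points on a conic -/
lemma five_conic [Fintype ι] (hR : Res w R) (hq : Fintype.card ι ≤ R.card) (hW : Sp w c 2 W)
    {o o' : ι} (ho : o ≠ o') (α : ι → ℤ) (m κ : ℤ) (h2 : ∀ a b, a ≠ b → c {a, b} = α a + α b + m)
    (h3 : ∀ a b k, a ≠ b → a ≠ k → b ≠ k → c {a, b, k} = α a + α b + α k + κ) :
    ∃ x : ι → K, ∀ I : Finset ι, I.card = 2 → ∀ i ∉ I, At w W c x I i := by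
  have hu : ∀ a : ι, ∃ u ∈ W, u a = 0 ∧ ∀ b, b ≠ a → E w (α b + α a + m - c {a}) (u b) := by
    intro a
    obtain ⟨u, hu, h0, hE⟩ := hW.circ {a} (by simp)
    exact ⟨u, hu, h0 a (mem_singleton_self _), fun b hb =>
      (hE b (by simpa using hb)).cast (by rw [← h2 b a hb])⟩
  choose u hu hu0 huE using hu
  obtain ⟨t, -, ht⟩ := ext_point hR (univ.erase o') (by
      rw [card_erase_of_mem (mem_univ _), card_univ]
      have : 0 < Fintype.card ι := Fintype.card_pos_iff.2 ⟨o⟩
      omega) (fun a => -(u o a / u o' a)) 0 (α o - c {o} - α o' + c {o'}) (by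
      intro a ha
      rw [sub_zero]
      by_cases hao : a = o
      · rw [hao, hu0]; simpa using G_zero _
      · exact ((huE o a hao).div (huE o' a (ne_of_mem_erase ha))).g.neg.cast (by ring))
  obtain ⟨v, hv, hvo, hvE⟩ : ∃ v ∈ W, (∃ s, v = u o + s • u o') ∧
      ∀ a, E w (α a + (α o + m - c {o})) (v a) := by
    refine ⟨u o + t • u o', W.add_mem (hu o) (W.smul_mem _ (hu o')), ⟨t, rfl⟩, fun a => ?_⟩
    by_cases ha : a = o'
    · subst ha
      simp only [Pi.add_apply, Pi.smul_apply, hu0, smul_zero, add_zero]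
      exact (huE o a ho.symm).cast (by ring)
    · have h1 := (huE o' a ha).ne
      have e : (u o + t • u o') a = (t - -(u o a / u o' a)) * u o' a := by
        simp only [Pi.add_apply, Pi.smul_apply, smul_eq_mul]
        field_simp
        ring
      rw [e]
      exact ((ht a (mem_erase.2 ⟨ha, mem_univ _⟩)).mul (huE o' a ha)).cast (by ring)
  obtain ⟨σ, hσ⟩ : ∃ σ : ι → K, ∀ a, u o a = σ a * v a :=
    ⟨fun a => u o a / v a, fun a => (div_mul_cancel₀ _ (hvE a).ne).symm⟩
  have hD : ∀ a, ∃ D : ℤ, ∀ b, b ≠ a → E w D (σ b - σ a) := by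
    intro a
    obtain ⟨b, hb⟩ : ∃ b, b ≠ a := by
      by_cases h : o = a
      · exact ⟨o', h ▸ ho.symm⟩
      · exact ⟨o, h⟩
    obtain ⟨μ, hμ⟩ : ∃ μ : K, μ * u a b = u o b - σ a * v b :=
      ⟨_, div_mul_cancel₀ _ (huE a b hb).ne⟩
    have h1 : u o - σ a • v - μ • u a = 0 := by
      refine hW.inj {a, b} (card_pair hb.symm) _
        (W.sub_mem (W.sub_mem (hu o) (W.smul_mem _ hv)) (W.smul_mem _ (hu a))) fun j hj => ?_
      simp only [mem_insert, mem_singleton] at hj
      rcases hj with rfl | rfl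
      · simp [hu0, hσ j]
      · simp [hμ]
    have h4 : ∀ k, (σ k - σ a) * v k = μ * u a k := fun k => by
      have : u o k - σ a * v k - μ * u a k = 0 := congrFun h1 k
      linear_combination this - hσ k
    have hμ0 : μ ≠ 0 := by
      rintro rfl
      have h5 : ∀ k, σ k = σ a := fun k => by
        simpa [(hvE k).ne, sub_eq_zero] using h4 k
      have h6 : σ o = 0 := by simpa [hu0, (hvE o).ne] using hσ o
      exact (huE o o' ho.symm).ne (by rw [hσ, h5 o', ← h5 o, h6, zero_mul])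
    obtain ⟨n, hn⟩ := exists_E (w := w) hμ0
    refine ⟨n + α a - c {a} - α o + c {o}, fun k hk => ?_⟩
    have := (hn.mul (huE a k hk)).div (hvE k)
    rw [← h4, mul_div_cancel_right₀ _ (hvE k).ne] at this
    exact this.cast (by ring)
  choose D hD using hD
  have hD' : ∀ a b, b ≠ a → E w (D o) (σ b - σ a) := by
    intro a b hb
    by_cases h : a = o
    · exact h ▸ hD a b hb
    · exact (hD a b hb).cast ((hD a o (Ne.symm h)).unique (hD o a h).swap)
  obtain ⟨s, hs⟩ := hR.surj (κ - m - (α o + m - c {o}) - 2 * D o)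
  refine ⟨fun a => s * σ a ^ 2 * v a, fun I hI k hk => ?_⟩
  obtain ⟨a, b, hab, rfl⟩ := card_eq_two.1 hI
  simp only [mem_insert, mem_singleton, not_or] at hk
  refine ⟨(s * (σ a + σ b)) • u o - (s * σ a * σ b) • v,
    W.sub_mem (W.smul_mem _ (hu o)) (W.smul_mem _ hv), fun j hj => ?_, ?_⟩
  · simp only [mem_insert, mem_singleton] at hj
    simp only [Pi.sub_apply, Pi.smul_apply, smul_eq_mul, hσ j]
    rcases hj with rfl | rfl <;> ring
  · have e : s * σ k ^ 2 * v k - ((s * (σ a + σ b)) • u o - (s * σ a * σ b) • v) k =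
        s * v k * (σ k - σ a) * (σ k - σ b) := by
      simp only [Pi.sub_apply, Pi.smul_apply, smul_eq_mul, hσ k]
      ring
    rw [e, h3 k a b hk.1 hk.2 hab, h2 a b hab]
    exact (((hs.mul (hvE k)).mul (hD' a k hk.1)).mul (hD' b k hk.2)).cast (by ring)

end

lemma five_nf {p : Fin 5 → Fin 5 → ℤ} {e : Fin 5 → Fin 5 → Fin 5 → ℤ} (h : Lab p e)
    (H : ∀ o a b z k, D5 o a b z k → e a b o + p z o = e a z o + p b o) :
    ∃ (α : Fin 5 → ℤ) (m κ : ℤ), (∀ a b, a ≠ b → p a b = α a + α b + m) ∧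
      ∀ a b k, a ≠ b → a ≠ k → b ≠ k → e a b k = α a + α b + α k + κ := by
  have H4 : ∀ o a b z : Fin 5, o ≠ a → o ≠ b → o ≠ z → a ≠ b → a ≠ z → b ≠ z →
      e a b o + p z o = e a z o + p b o := by
    intro o a b z h1 h2 h3 h4 h5 h6
    obtain ⟨k, hk⟩ : ∃ k : Fin 5, o ≠ k ∧ a ≠ k ∧ b ≠ k ∧ z ≠ k := by
      obtain ⟨k, -, hk⟩ := exists_mem_notMem_of_card_lt_card
        (show ({o, a, b, z} : Finset (Fin 5)).card < (univ : Finset (Fin 5)).card from
          card_le_four.trans_lt (by simp))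
      exact ⟨k, by grind⟩
    exact H o a b z k (by grind [D5])
  have G1 : ∀ o a b z : Fin 5, o ≠ a → o ≠ b → o ≠ z → a ≠ b → a ≠ z → b ≠ z →
      p z o + p b a = p b o + p z a := by
    intro o a b z h1 h2 h3 h4 h5 h6
    have a1 := H4 o a b z h1 h2 h3 h4 h5 h6
    have a2 := H4 a o b z h1.symm h4 h5 h2 h3 h6
    simp only [h.ps, h.e1, h.e2] at a1 a2 ⊢
    omega
  obtain ⟨α, m, h2⟩ : ∃ (α : Fin 5 → ℤ) (m : ℤ), ∀ a b, a ≠ b → p a b = α a + α b + m := by
    refine ⟨![p 0 1 + p 0 2 - p 1 2, p 0 1, p 0 2, p 0 3, p 0 4], -(p 0 1 + p 0 2 - p 1 2), ?_⟩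
    have g1 := G1 1 0 2 3 (by decide) (by decide) (by decide) (by decide) (by decide) (by decide)
    have g2 := G1 1 0 2 4 (by decide) (by decide) (by decide) (by decide) (by decide) (by decide)
    have g3 := G1 2 0 1 3 (by decide) (by decide) (by decide) (by decide) (by decide) (by decide)
    have g4 := G1 2 0 1 4 (by decide) (by decide) (by decide) (by decide) (by decide) (by decide)
    have g5 := G1 3 0 1 4 (by decide) (by decide) (by decide) (by decide) (by decide) (by decide)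
    have s := h.ps
    simp only [Fin.forall_fin_succ, Fin.forall_fin_zero] at s ⊢
    simp at s ⊢
    omega
  have sw : ∀ a b z o : Fin 5, a ≠ b → a ≠ o → b ≠ o → z ≠ a → z ≠ o →
      e a b o - α b = e a z o - α z := by
    intro a b z o h1 h3 h4 h5 h6
    by_cases hbz : b = z
    · rw [hbz]
    have := H4 o a b z h3.symm h4.symm h6.symm h1 h5.symm hbz
    rw [h2 z o h6, h2 b o h4] at this
    omega
  refine ⟨α, m, e 0 1 2 - α 0 - α 1 - α 2, h2, fun a b k h1 h3 h4 => ?_⟩
  have one : ∀ a b k z : Fin 5, a ≠ b → a ≠ k → b ≠ k → ∃ b' k' : Fin 5, z ≠ b' ∧ z ≠ k' ∧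
      b' ≠ k' ∧ (z ≠ a → b' = a ∨ k' = a) ∧
      e a b k - α a - α b - α k = e z b' k' - α z - α b' - α k' := by
    intro a b k z h1 h3 h4
    by_cases c1 : z = a
    · exact ⟨b, k, c1 ▸ h1, c1 ▸ h3, h4, fun h => absurd c1 h, by rw [c1]⟩
    by_cases c2 : z = k
    · refine ⟨a, b, c1, c2 ▸ h4.symm, h1, fun _ => Or.inl rfl, ?_⟩
      rw [c2, h.e1 k a b, h.e2 a k b]; ring
    · refine ⟨a, k, c1, c2, h3, fun _ => Or.inl rfl, ?_⟩
      have := sw a b z k h1 h3 h4 c1 c2
      rw [h.e1 z a k]; omega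
  obtain ⟨b₁, k₁, d1, d2, d3, -, q1⟩ := one a b k 0 h1 h3 h4
  have q2 : ∃ k₂ : Fin 5, 0 ≠ k₂ ∧ 1 ≠ k₂ ∧
      e 0 b₁ k₁ - α b₁ - α k₁ = e 0 k₂ 1 - α 1 - α k₂ := by
    by_cases c : k₁ = 1
    · exact ⟨b₁, d1, c ▸ d3.symm, by rw [c]; ring⟩
    · refine ⟨k₁, d2, Ne.symm c, ?_⟩
      have := sw 0 b₁ 1 k₁ d1 d2 d3 (by decide) (Ne.symm c)
      rw [h.e2 0 k₁ 1]; omega
  obtain ⟨k₂, d4, d5, q2⟩ := q2
  have q3 := sw 0 k₂ 2 1 d4 (by decide) d5.symm (by decide) (by decide)
  rw [h.e2 0 2 1] at q3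
  omega

theorem ext_small (hR : Res w R) {d : ℕ} (hd : d ≤ 5) (hq : d ≤ R.card)
    {c : Finset (Fin d) → ℤ} (hc : MConvex c) {m : ℕ} {W : Submodule K (Fin d → K)}
    (hW : Sp w c m W) :
    ∃ x, ∀ I : Finset (Fin d), I.card = m → ∀ i ∉ I, At w W c x I i := by
  have fin : (∃ x, ∀ J ⊆ univ, J.card = m + 1 → Tr w W c x J) →
      ∃ x, ∀ I : Finset (Fin d), I.card = m → ∀ i ∉ I, At w W c x I i := by
    rintro ⟨x, hx⟩
    exact ⟨x, fun I hI i hi =>
      (hx _ (subset_univ _) (by rw [card_insert_of_notMem hi, hI])).at hi⟩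
  by_cases h : m ≤ 1 ∨ d ≤ m + 2
  · exact fin (ext_easy hR hW hc univ (by simpa using h) (by simpa using hq))
  obtain rfl : d = 5 := by omega
  obtain rfl : m = 2 := by omega
  rcases (five_lab hc).main with ⟨z, n, l, k, f, hS⟩ | H
  · have hU : ({z, n, l, k, f} : Finset (Fin 5)) = univ := by
      obtain ⟨d1, d2, d3, d4, d5, d6, d7, d8, d9, d10⟩ := hS.1
      apply eq_univ_of_card
      rw [card_insert_of_notMem (by simp [d1, d2, d3, d4]),
        card_insert_of_notMem (by simp [d5, d6, d7]), card_insert_of_notMem (by simp [d8, d9]),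
        card_pair d10]
      rfl
    exact fin (hU ▸ five_shape hR hq hW hc hS)
  · obtain ⟨α, m, κ, h2, h3⟩ := five_nf (five_lab hc) H
    exact five_conic hR (by simpa using hq) hW (show (0 : Fin 5) ≠ 1 by decide) α m κ h2 h3

end Pool.Agent.Lib.MP_90534d_pr
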