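import Pool.Agent.Lib.MP_90534d_pr.Index

/-! The tail function of a lattice in a local field is the tropical polynomial of its entropy. -/

namespace Pool.Agent.Lib.MP_90534d_pr

open Finset MeasureTheory
open scoped WithZero

section
variable (K : Type*) [Field K] [ValuativeRel K] [TopologicalSpace K] [IsNonarchimedeanLocalField K]

/-- the valuation with values in the standard group -/
noncomputable def wK : Valuation K ℤᵐ⁰ :=
  (ValuativeRel.valuation K).map
    (IsNonarchimedeanLocalField.valueGroupWithZeroIsoInt K).toMulEquiv.toMonoidWithZeroHom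
    (IsNonarchimedeanLocalField.valueGroupWithZeroIsoInt K).strictMono.monotone

lemma meas_wK (x : K) : wK K x =
    IsNonarchimedeanLocalField.valueGroupWithZeroIsoInt K (ValuativeRel.valuation K x) := rfl

lemma meas_G (n : ℤ) (x : K) : G (wK K) n x ↔ ValuativeRel.valuation K x ≤
    (IsNonarchimedeanLocalField.valueGroupWithZeroIsoInt K).symm (WithZero.exp (-n)) := by
  rw [G, meas_wK, ← map_le_map_iff (IsNonarchimedeanLocalField.valueGroupWithZeroIsoInt K),
    OrderMonoidIso.apply_symm_apply]

lemma meas_G_zero (x : K) : G (wK K) 0 x ↔ x ∈ (ValuativeRel.valuation K).integer := by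
  rw [meas_G, Valuation.mem_integer_iff, neg_zero, WithZero.exp_zero, map_one]

lemma meas_G_one (x : K) : G (wK K) 1 x ↔ ValuativeRel.valuation K x < 1 := by
  have e : ValuativeRel.valuation K x < 1 ↔ wK K x < 1 := by
    rw [meas_wK, ← map_lt_map_iff (IsNonarchimedeanLocalField.valueGroupWithZeroIsoInt K), map_one]
  rw [e]
  rcases eq_or_ne x 0 with rfl | hx
  · simp [G_zero]
  obtain ⟨n, hn⟩ := exists_E (w := wK K) hx
  rw [G, hn, ← WithZero.exp_zero, WithZero.exp_le_exp, WithZero.exp_lt_exp]
  omega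

lemma meas_G_val (n : ℤ) (x : K) : G (wK K) n x ↔ (n : WithTop ℤ) ≤ val K x := by
  rcases eq_or_ne x 0 with rfl | hx
  · simp [G_zero, val]
  obtain ⟨m, hm⟩ := exists_E (w := wK K) hx
  rw [val, if_neg hx, ← meas_wK, G, hm, WithZero.log_exp, WithZero.exp_le_exp, WithTop.coe_le_coe]
  omega

lemma meas_res (x y : (ValuativeRel.valuation K).integer) :
    IsLocalRing.residue _ x = IsLocalRing.residue _ y ↔ G (wK K) 1 ((x : K) - y) := by
  rw [← sub_eq_zero, ← map_sub, IsLocalRing.residue_eq_zero_iff, IsLocalRing.mem_maximalIdeal,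
    mem_nonunits_iff, Valuation.Integer.not_isUnit_iff_valuation_lt_one, meas_G_one]
  rfl

theorem exists_res : ∃ R : Finset K, Res (wK K) R ∧ R.card = resCard K := by
  classical
  let _ := Fintype.ofFinite (IsLocalRing.ResidueField (ValuativeRel.valuation K).integer)
  obtain ⟨s, hs⟩ := (IsLocalRing.residue_surjective
    (R := (ValuativeRel.valuation K).integer)).hasRightInverse
  refine ⟨univ.image fun a => (s a : K), ⟨fun n => ?_, ?_, ?_, fun x hx => ?_⟩, ?_⟩
  · obtain ⟨x, hx⟩ := ValuativeRel.valuation_surjective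
      ((IsNonarchimedeanLocalField.valueGroupWithZeroIsoInt K).symm (WithZero.exp (-n)))
    exact ⟨x, by rw [E, meas_wK, hx, OrderMonoidIso.apply_symm_apply]⟩
  · intro r hr
    obtain ⟨a, -, rfl⟩ := mem_image.1 hr
    exact (meas_G_zero K _).2 (s a).2
  · intro r hr t ht hrt
    obtain ⟨a, -, rfl⟩ := mem_image.1 hr
    obtain ⟨b, -, rfl⟩ := mem_image.1 ht
    refine (((meas_G_zero K _).2 (s a).2).sub ((meas_G_zero K _).2 (s b).2)).cases.resolve_right
      fun h => hrt ?_
    have := (meas_res K (s a) (s b)).2 h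
    rw [hs a, hs b] at this
    rw [this]
  · refine ⟨s (IsLocalRing.residue _ ⟨x, (meas_G_zero K _).1 hx⟩),
      mem_image_of_mem _ (mem_univ _), ?_⟩
    exact (meas_res K ⟨x, (meas_G_zero K _).1 hx⟩ _).1 (hs _).symm
  · rw [card_image_of_injective _ fun a b e => hs.injective (Subtype.val_injective e), card_univ,
      resCard, Nat.card_eq_fintype_card]

lemma meas_resCard : 1 < resCard K := Finite.one_lt_card

variable {K}

lemma meas_box_eq {d : ℕ} (v : Fin d → ℤ) :
    (Box (wK K) v univ : Set (Fin d → K)) = Set.univ.pi fun i => {x | G (wK K) (v i) x} := by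
  ext x
  simp [mem_Box]

lemma meas_box_open {d : ℕ} (v : Fin d → ℤ) : IsOpen (Box (wK K) v univ : Set (Fin d → K)) := by
  refine AddSubgroup.isOpen_of_mem_nhds _ (g := 0) ?_
  rw [meas_box_eq]
  refine set_pi_mem_nhds Set.finite_univ fun i _ => ?_
  refine (IsValuativeTopology.hasBasis_nhds_zero' K).mem_iff.2
    ⟨(IsNonarchimedeanLocalField.valueGroupWithZeroIsoInt K).symm (WithZero.exp (-v i)), ?_,
      fun x hx => (meas_G K _ _).2 (le_of_lt hx)⟩
  simp

lemma meas_box_compact {d : ℕ} (v : Fin d → ℤ) :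
    IsCompact (Box (wK K) v univ : Set (Fin d → K)) := by
  rw [meas_box_eq]
  refine isCompact_univ_pi fun i => ?_
  simp only [meas_G]
  exact IsNonarchimedeanLocalField.isCompact_closedBall K _

lemma meas_lattice {d : ℕ} (A : Matrix (Fin d) (Fin d) K) :
    lattice A = (Lat (wK K) fun j i => A i j : AddSubgroup (Fin d → K)) := by
  have e : ∀ t : Fin d → K, A.mulVec t = ∑ j, t j • fun i => A i j := by
    intro t
    ext i
    simp [Matrix.mulVec, dotProduct, mul_comm]
  ext x
  rw [SetLike.mem_coe, mem_Lat]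
  constructor
  · rintro ⟨t, rfl⟩
    exact ⟨fun j => t j, fun j => (meas_G_zero K _).2 (t j).2, e _⟩
  · rintro ⟨t, ht, rfl⟩
    exact ⟨fun j => ⟨t j, (meas_G_zero K _).1 (ht j)⟩, (e _).symm⟩

lemma meas_index {V : Type*} [AddCommGroup V] [MeasurableSpace V] [MeasurableAdd V]
    (μ : Measure V) [μ.IsAddLeftInvariant] (B L : AddSubgroup V)
    (hB : MeasurableSet (B : Set V)) (hL : MeasurableSet (L : Set V)) (h : B.relIndex L ≠ 0) :
    (B.relIndex L : ENNReal) * μ ((L : Set V) ∩ B) = μ L := by
  have emb : MeasurableEmbedding L.subtype := MeasurableEmbedding.subtype_coe hL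
  have : MeasurableAdd L :=
    ⟨fun a => ((measurable_const_add (a : V)).comp measurable_subtype_coe).subtype_mk,
      fun a => ((measurable_add_const (a : V)).comp measurable_subtype_coe).subtype_mk⟩
  have : (μ.comap L.subtype).IsAddLeftInvariant := Measure.IsAddLeftInvariant.comap μ emb
  have : (B.addSubgroupOf L).FiniteIndex := ⟨h⟩
  have e := (B.addSubgroupOf L).index_mul_measure (emb.measurable hB) (μ.comap L.subtype)
  rw [emb.comap_apply, emb.comap_apply] at e
  have e1 : L.subtype '' (B.addSubgroupOf L : Set L) = (L : Set V) ∩ B :=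
    Subtype.image_preimage_coe (L : Set V) B
  have e2 : L.subtype '' Set.univ = (L : Set V) := Subtype.coe_image_univ (L : Set V)
  rwa [e1, e2] at e

theorem tail_eq {d : ℕ} [MeasurableSpace (Fin d → K)] [BorelSpace (Fin d → K)]
    (μ : Measure (Fin d → K)) [μ.IsAddHaarMeasure] (A : Matrix (Fin d) (Fin d) K)
    {c : Finset (Fin d) → ℤ} (h : Ent (wK K) (Lat (wK K) fun j i => A i j) c) (v : Fin d → ℤ) :
    tail μ A v = trop c v := by
  obtain ⟨R, hR, hq⟩ := exists_res K
  have h1 := meas_resCard K
  set L : AddSubgroup (Fin d → K) := Lat (wK K) fun j i => A i j with hLdef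
  have hL : OMod (wK K) L := Lat_omod _
  obtain ⟨n, hn, hi⟩ := h.index hR hL v
  rw [hq] at hi
  have ho : IsOpen (L : Set (Fin d → K)) := AddSubgroup.isOpen_mono (h.box_le hL) (meas_box_open _)
  have hpos : μ L ≠ 0 := (ho.measure_pos μ ⟨0, L.zero_mem⟩).ne'
  have hfin : μ L ≠ ⊤ := ((measure_mono h.le_box).trans_lt (meas_box_compact _).measure_lt_top).ne
  have e := meas_index μ (Box (wK K) v univ) L (meas_box_open v).measurableSet ho.measurableSet
    (by rw [hi]; positivity)
  have hs : {x : Fin d → K | ∀ i, (v i : WithTop ℤ) ≤ val K (x i)} = Box (wK K) v univ := by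
    ext x
    simp [mem_Box, meas_G_val]
  have hq0 : (0 : ℝ) < resCard K := by exact_mod_cast (by omega : 0 < resCard K)
  have hm : (0 : ℝ) < (μ L).toReal := ENNReal.toReal_pos hpos hfin
  have e' := congrArg ENNReal.toReal e
  rw [hi, ENNReal.toReal_mul, ENNReal.toReal_natCast, Nat.cast_pow] at e'
  have hp : (ProbabilityTheory.cond μ L (Box (wK K) v univ)).toReal =
      (((resCard K : ℝ)) ^ n)⁻¹ := by
    rw [ProbabilityTheory.cond_apply ho.measurableSet, ENNReal.toReal_mul, ENNReal.toReal_inv]
    field_simp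
    linarith
  rw [tail, meas_lattice, hs, hp, Real.logb_inv, neg_neg, Real.logb_pow,
    Real.logb_self_eq_one (by exact_mod_cast h1), mul_one, ← hn, Int.cast_natCast]

end

end Pool.Agent.Lib.MP_90534d_pr
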