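import Pool.Agent.Lib.MP_90534d_pr.Basic

/-! Coefficient vectors that are not entropy vectors. -/

namespace Pool.Agent.Lib.MP_90534d_pr

open Finset
open scoped WithZero

variable {K : Type*} [Field K] {w : Valuation K ℤᵐ⁰} {R : Finset K}
  {ι : Type*} [DecidableEq ι] {L : AddSubgroup (ι → K)} {c : Finset ι → ℤ}

omit [DecidableEq ι] in
lemma no_red (hL : OMod w L) {i : ι} {n : ℤ} {e y : ι → K} (he : e ∈ L) (hy : y ∈ L)
    (h1 : E w n (e i)) (h2 : G w n (y i)) :
    ∃ a, G w 0 a ∧ (fun k => y k - a * e k) ∈ L ∧ y i - a * e i = 0 :=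
  have h := (h2.div h1).cast (sub_self n)
  ⟨y i / e i, h, L.sub_mem hy (hL _ h e he), by rw [div_mul_cancel₀ _ h1.ne, sub_self]⟩

lemma no_not {n : ℤ} {x : K} (h : E w n x) (h' : G w (n + 1) x) : False := by
  have := h.le h'
  omega

lemma no_unit {x y a : K} (hx : G w 0 x) (hy : E w 0 y) (ha : G w 0 a) (h : G w 1 (y - a * x)) :
    E w 0 x := hx.cases.resolve_right fun k =>
  no_not hy (by simpa using h.add (ha.mul k))

lemma no_choose (n : ℕ) : 2 * (n.choose 2 : ℤ) = n * (n - 1) := by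
  induction n with
  | zero => simp
  | succ n ih =>
    rw [Nat.choose_succ_succ, Nat.choose_one_right]
    push_cast
    linarith

theorem no_of_card_lt (hR : Res w R) {d : ℕ} (h : R.card < d) :
    ∃ c : Finset (Fin d) → ℤ, MConvex c ∧
      ∀ L : AddSubgroup (Fin d → K), OMod w L → ¬ Ent w L c := by
  refine ⟨fun I => (I.card.choose 2 : ℤ), ⟨by simp, fun I J => ?_,
    fun S i j k hi hj hk hij hik hjk => (min_le_left _ _).trans_eq ?_⟩, fun L hL hE => ?_⟩
  · have h1 := no_choose I.card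
    have h2 := no_choose J.card
    have h3 := no_choose (I ∪ J).card
    have h4 := no_choose (I ∩ J).card
    have h5 : ((I ∪ J).card : ℤ) = I.card + J.card - (I ∩ J).card := by
      have := card_union_add_card_inter I J
      omega
    have h6 : ((I ∩ J).card : ℤ) ≤ I.card := Nat.cast_le.2 (card_le_card inter_subset_left)
    have h7 : ((I ∩ J).card : ℤ) ≤ J.card := Nat.cast_le.2 (card_le_card inter_subset_right)
    rw [h5] at h3
    nlinarith [mul_nonneg (sub_nonneg.2 h6) (sub_nonneg.2 h7)]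
  · simp [card_insert_of_notMem, hi, hj, hk, hij, hik]
  have inc : ∀ (I : Finset (Fin d)) i, i ∉ I →
      ((insert i I).card.choose 2 : ℤ) - (I.card.choose 2 : ℤ) = I.card := fun I i hi => by
    rw [card_insert_of_notMem hi, Nat.choose_succ_succ, Nat.choose_one_right]
    push_cast
    ring
  have lo : ∀ (I : Finset (Fin d)), ∀ x ∈ L, (∀ j ∈ I, x j = 0) → ∀ i, G w I.card (x i) :=
    fun I x hx h0 i => by
      by_cases hi : i ∈ I
      · exact h0 i hi ▸ G_zero _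
      · exact ((hE.2 I i hi).1 x hx h0).cast (inc I i hi)
  have lo0 : ∀ x ∈ L, ∀ i, G w 0 (x i) := fun x hx => lo ∅ x hx (by simp)
  have lo1 : ∀ j, ∀ x ∈ L, x j = 0 → ∀ i, G w 1 (x i) := fun j x hx h0 =>
    lo {j} x hx (by simpa using h0)
  have wi0 : ∀ i, ∃ x ∈ L, E w 0 (x i) := fun i => by
    obtain ⟨x, hx, -, h1⟩ := (hE.2 ∅ i (by simp)).2
    exact ⟨x, hx, h1.cast (inc ∅ i (by simp))⟩
  have wi1 : ∀ i j, j ≠ i → ∃ x ∈ L, x i = 0 ∧ E w 1 (x j) := fun i j hj => by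
    obtain ⟨x, hx, h0, h1⟩ := (hE.2 {i} j (by simpa using hj)).2
    exact ⟨x, hx, h0 i (by simp), h1.cast (inc {i} j (by simpa using hj))⟩
  obtain ⟨r0, hr0, -⟩ := hR.cov 0 (G_zero _)
  have hd := card_pos.2 ⟨r0, hr0⟩
  obtain ⟨u, v, huv⟩ : ∃ u v : Fin d, v ≠ u := ⟨⟨0, by omega⟩, ⟨1, by omega⟩, by simp⟩
  obtain ⟨e, he, eu⟩ := wi0 u
  obtain ⟨f, hf, fu, fv⟩ := wi1 u v huv
  have ee : ∀ i, E w 0 (e i) := fun i => by
    obtain ⟨y, hy, yi⟩ := wi0 i
    obtain ⟨a, ha, h1, h2⟩ := no_red hL he hy eu (lo0 y hy u)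
    exact no_unit (lo0 e he i) yi ha (lo1 u _ h1 h2 i)
  choose r hr hs using fun i => hR.cov (f i / (f v * e i))
    (((lo1 u f hf fu i).div (fv.mul (ee i))).cast (by norm_num))
  refine absurd (card_le_card_of_injOn (s := univ) r (fun i _ => hr i) fun i _ j _ hij => ?_)
    (by simpa using h)
  by_contra hne
  obtain ⟨y, hy, yi, yj⟩ := wi1 i j (Ne.symm hne)
  obtain ⟨a, -, h1, h2⟩ := no_red hL he hy eu (lo0 y hy u)
  obtain ⟨m, hm, h3, h4⟩ := no_red hL hf h1 fv (lo1 u _ h1 h2 v)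
  have z : ∀ k, G w 2 (y k - a * e k - m * f k) := fun k =>
    (lo {u, v} _ h3 (by simp [h2, fu, h4]) k).cast (by rw [card_pair huv.symm]; rfl)
  have k1 := (hm.mul fv.g).mul ((hs j).sub (hij ▸ hs i))
  have k2 := ((z j).div (ee j)).sub ((z i).div (ee i))
  refine no_not (yj.div (ee j)) ?_
  have k3 : y j / e j = m * f v * (f j / (f v * e j) - r j - (f i / (f v * e i) - r j)) +
      ((y j - a * e j - m * f j) / e j - (y i - a * e i - m * f i) / e i) := by
    have := (ee i).ne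
    have := (ee j).ne
    have := fv.ne
    rw [yi]
    field_simp
    ring
  rw [k3]
  exact (k1.cast (by norm_num)).add (k2.cast (by norm_num))

lemma no_pull {κ : Type*} [Fintype κ] [DecidableEq κ] {f : κ → ι} (hf : Function.Injective f)
    {c : Finset κ → ℤ} (h : MConvex c) : MConvex fun I : Finset ι => c {a | f a ∈ I} := by
  have sup : ∀ I J : Finset ι, c {a | f a ∈ I} + c {a | f a ∈ J} ≤
      c {a | f a ∈ I ∪ J} + c {a | f a ∈ I ∩ J} := fun I J => by
    simpa only [mem_union, mem_inter, filter_or, filter_and] using h.2.1 _ _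
  have out : ∀ i, (¬ ∃ a, f a = i) → ∀ S : Finset ι,
      (univ.filter fun a => f a ∈ insert i S) = univ.filter fun a => f a ∈ S := fun i hi S =>
    filter_congr fun a _ => by
      rw [mem_insert, or_iff_right fun e => hi ⟨a, e⟩]
  have inn : ∀ b (S : Finset ι),
      (univ.filter fun a => f a ∈ insert (f b) S) = insert b (univ.filter fun a => f a ∈ S) :=
    fun b S => by
    ext a
    simp [hf.eq_iff]
  refine ⟨by simpa using h.1, sup, fun S i j k hi hj hk hij hik hjk => ?_⟩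
  by_cases ci : ∃ a, f a = i
  swap
  · simp only [out i ci]
    exact (min_le_left _ _).trans_eq (add_comm _ _)
  by_cases cj : ∃ a, f a = j
  swap
  · rw [insert_comm i j]
    simp only [out j cj]
    exact (min_le_right _ _).trans_eq (add_comm _ _)
  obtain ⟨a, rfl⟩ := ci
  obtain ⟨b, rfl⟩ := cj
  by_cases ck : ∃ a, f a = k
  · obtain ⟨e, rfl⟩ := ck
    simp only [inn]
    exact h.2.2 _ _ _ _ (by simpa using hi) (by simpa using hj) (by simpa using hk)
      (fun q => hij (q ▸ rfl)) (fun q => hik (q ▸ rfl)) fun q => hjk (q ▸ rfl)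
  · simp only [inn, out k ck]
    exact (min_le_left _ _).trans
      (h.local (by simpa using hi) (by simpa using hj) fun q => hij (q ▸ rfl))

/-- the values on six coordinates -/
def noT (b x0 x1 x2 x3 x4 x5 : Bool) : ℤ :=
  match x0.toNat + x1.toNat + x2.toNat + x3.toNat + x4.toNat + x5.toNat with
  | 0 => 0
  | 1 => 0
  | 2 => if x0 && x1 || x2 && x3 || x4 && x5 then 1 else 0
  | 3 => if x0 && x2 && x4 || x0 && x3 && x5 || x1 && x2 && x5 || b && x1 && x3 && x4 then 2 else 1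
  | n => 2 * n - 5

/-- the coefficient vector of the Fano or the non-Fano configuration -/
def noC (b : Bool) (I : Finset (Fin 6)) : ℤ :=
  noT b (0 ∈ I) (1 ∈ I) (2 ∈ I) (3 ∈ I) (4 ∈ I) (5 ∈ I)

lemma noC_mconvex (b : Bool) : MConvex (noC b) := by
  refine ⟨by cases b <;> rfl, fun I J => ?_, fun S i j k hi hj hk => ?_⟩
  · have key : ∀ b x0 x1 x2 x3 x4 x5 y0 y1 y2 y3 y4 y5 : Bool,
        noT b x0 x1 x2 x3 x4 x5 + noT b y0 y1 y2 y3 y4 y5 ≤
        noT b (x0 || y0) (x1 || y1) (x2 || y2) (x3 || y3) (x4 || y4) (x5 || y5) +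
        noT b (x0 && y0) (x1 && y1) (x2 && y2) (x3 && y3) (x4 && y4) (x5 && y5) := by
      decide +kernel
    simpa only [noC, mem_union, mem_inter, Bool.decide_or, Bool.decide_and] using
      key b _ _ _ _ _ _ _ _ _ _ _ _
  · revert b S i j k
    decide +kernel

lemma no_six {b : Bool} (hb : if b then E w 0 2 else G w 1 2) {L : AddSubgroup (Fin 6 → K)}
    (hL : OMod w L) (hE : Ent w L (noC b)) : False := by
  have lo : ∀ (I : Finset (Fin 6)) (i : Fin 6) (n : ℤ),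
      (∀ b, i ∉ I ∧ n ≤ noC b (insert i I) - noC b I) → ∀ x ∈ L, (∀ j ∈ I, x j = 0) →
      G w n (x i) := fun I i n h x hx h0 => ((hE.2 I i (h b).1).1 x hx h0).mono (h b).2
  have wi : ∀ (I : Finset (Fin 6)) (i : Fin 6) (n : ℤ),
      (∀ b, i ∉ I ∧ noC b (insert i I) - noC b I = n) → ∃ x ∈ L, (∀ j ∈ I, x j = 0) ∧
      E w n (x i) := fun I i n h => (h b).2 ▸ (hE.2 I i (h b).1).2
  have l0 : ∀ x ∈ L, ∀ i, G w 0 (x i) := fun x hx i => lo ∅ i 0 (by revert i; decide) x hx (by simp)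
  have l2 : ∀ x ∈ L, x 0 = 0 → x 2 = 0 → ∀ i, i ≠ 0 ∧ i ≠ 2 → G w 1 (x i) :=
    fun x hx h0 h2 i hi => lo {0, 2} i 1 (by revert i; decide) x hx (by simp [h0, h2])
  obtain ⟨e, he, e2, e0⟩ := wi {2} 0 0 (by decide)
  obtain ⟨f, hf, f0, f2⟩ := wi {0} 2 0 (by decide)
  obtain ⟨g, hg, g0, g1⟩ := wi {0, 2} 1 1 (by decide)
  have e3 := lo {2} 3 1 (by decide) e he e2
  have f1 := lo {0} 1 1 (by decide) f hf f0
  have g4 := lo {0, 2} 4 2 (by decide) g hg g0
  replace e2 : e 2 = 0 := e2 2 (by simp)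
  replace f0 : f 0 = 0 := f0 0 (by simp)
  have g2 : g 2 = 0 := g0 2 (by simp)
  replace g0 : g 0 = 0 := g0 0 (by simp)
  have g3 := l2 g hg g0 g2 3 (by decide)
  have g5 := l2 g hg g0 g2 5 (by decide)
  have eu : ∀ i : Fin 6, i = 1 ∨ i = 4 ∨ i = 5 → E w 0 (e i) := fun i hi => by
    obtain ⟨y, hy, y2, yi⟩ := wi {2} i 0 (by revert i; decide)
    obtain ⟨a, ha, h1, h2⟩ := no_red hL he hy e0 (l0 y hy 0)
    exact no_unit (l0 e he i) yi ha
      (l2 _ h1 h2 (by simp [e2, y2 2 (by simp)]) i (by clear yi; revert i; decide))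
  have fu : ∀ i : Fin 6, i = 3 ∨ i = 4 ∨ i = 5 → E w 0 (f i) := fun i hi => by
    obtain ⟨y, hy, y0, yi⟩ := wi {0} i 0 (by revert i; decide)
    obtain ⟨a, ha, h1, h2⟩ := no_red hL hf hy f2 (l0 y hy 2)
    exact no_unit (l0 f hf i) yi ha
      (l2 _ h1 (by simp [f0, y0 0 (by simp)]) h2 i (by clear yi; revert i; decide))
  have e1 := eu 1 (by decide)
  have e4 := eu 4 (by decide)
  have e5 := eu 5 (by decide)
  have f3 := fu 3 (by decide)
  have f4 := fu 4 (by decide)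
  have f5 := fu 5 (by decide)
  have cb : ∀ x ∈ L, ∀ y ∈ L, ∀ i, (fun k => x i * y k - y i * x k) ∈ L := fun x hx y hy i =>
    L.sub_mem (hL _ (l0 x hx i) y hy) (hL _ (l0 y hy i) x hx)
  have A : G w 2 (f 3 * g 5 - g 3 * f 5) :=
    lo {0, 3} 5 2 (by decide) _ (cb f hf g hg 3) (by simp [f0, g0, mul_comm])
  have B : G w 2 (e 1 * g 5 - g 1 * e 5) :=
    lo {1, 2} 5 2 (by decide) _ (cb e he g hg 1) (by simp [e2, g2, mul_comm])
  have D : G w 1 (f 4 * e 5 - e 4 * f 5) :=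
    lo {4} 5 1 (by decide) _ (cb f hf e he 4) (by simp [mul_comm])
  have W : G w 2 ((g 1 * e 4 * f 3 + g 3 * f 4 * e 1) * (e 5 * f 5) -
      2 * (e 1 * g 5) * (f 3 * e 4 * f 5)) := by
    have k := ((D.mul ((g5.mul f3.g).mul e1.g)).sub (B.mul ((e4.g.mul f3.g).mul f5.g))).sub
      (A.mul ((f4.g.mul e1.g).mul e5.g))
    exact (congrArg (G w 2) (by ring)).mp k
  cases b
  · have W2 : G w 2 (g 1 * e 4 * f 3 + g 3 * f 4 * e 1) := by
      have k := (W.add (((show G w 1 2 from hb).mul (e1.g.mul g5)).mul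
        ((f3.g.mul e4.g).mul f5.g))).div (e5.mul f5)
      rwa [sub_add_cancel, mul_div_cancel_right₀ _ (e5.mul f5).ne] at k
    obtain ⟨y, hy, y1, y4⟩ := (hE.2 {1, 3} 4 (by decide)).2
    have y3 : y 3 = 0 := y1 3 (by simp)
    replace y1 : y 1 = 0 := y1 1 (by simp)
    obtain ⟨a, ha, h1, h2⟩ := no_red hL he hy e0 (l0 y hy 0)
    obtain ⟨m, hm, h3, h4⟩ := no_red hL hf h1 f2 (l0 _ h1 2)
    have h5 : y 0 - a * e 0 - m * f 0 = 0 := by rw [h2, f0, mul_zero, sub_zero]
    obtain ⟨n, hn, h6, h7⟩ := no_red hL hg h3 g1 (l2 _ h3 h5 h4 1 (by decide))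
    have z : ∀ k : Fin 6, k = 3 ∨ k = 4 → G w 2 (y k - a * e k - m * f k - n * g k) := fun k hk =>
      lo {0, 1, 2} k 2 (by revert k; decide) _ h6 (by simp [h5, h7, h4, g0, g2])
    have z3 := z 3 (by decide)
    have z4 := z 4 (by decide)
    have a1 : G w 1 a := by
      have k := ((hm.mul f1).add (hn.mul g1.g)).neg.div e1
      rwa [show -(m * f 1 + n * g 1) = a * e 1 by linear_combination h7 - y1,
        mul_div_cancel_right₀ _ e1.ne] at k
    have m1 : G w 1 m := by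
      have k := (((ha.mul e3).add (hn.mul g3)).add (z3.mono one_le_two)).neg.div f3
      rwa [show -(a * e 3 + n * g 3 + (y 3 - a * e 3 - m * f 3 - n * g 3)) = m * f 3 by
        linear_combination -y3, mul_div_cancel_right₀ _ f3.ne] at k
    refine no_not ((e1.mul f3).mul y4) ?_
    have k := ((((e1.g.mul f3.g).mul (z4.add (hn.mul g4))).sub (hn.mul W2)).sub
      ((m1.mul f1).mul (f3.g.mul e4.g))).sub (((a1.mul e3).add z3).mul (e1.g.mul f4.g))
    exact (congrArg (G w 2) (by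
      linear_combination (f 3 * e 4) * h7 - (f 3 * e 4) * y1 - (e 1 * f 4) * y3)).mp k
  · have g5' : E w 1 (e 1 * g 5) := by
      simpa using (g1.mul e5).add B (by norm_num)
    have W1 := ((((show E w 0 2 from hb).mul g5').mul ((f3.mul e4).mul f5)).add W
      (by norm_num)).div (e5.mul f5)
    rw [add_sub_cancel, mul_div_cancel_right₀ _ (e5.mul f5).ne] at W1
    have c1 : G w 0 (e 1 * f 3 - f 1 * e 3) := l0 _ (cb e he f hf 1) 3
    have c2 : G w 0 (g 1 * f 3 - f 1 * g 3) := l0 _ (cb g hg f hf 1) 3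
    have c3 : G w 0 (e 1 * g 3 - g 1 * e 3) := l0 _ (cb e he g hg 1) 3
    have y4 : G w 2 ((e 1 * f 3 - f 1 * e 3) * g 4 - (g 1 * f 3 - f 1 * g 3) * e 4 -
        (e 1 * g 3 - g 1 * e 3) * f 4) := ((hE.2 {1, 3} 4 (by decide)).1 _
      (L.sub_mem (L.sub_mem (hL _ c1 g hg) (hL _ c2 e he)) (hL _ c3 f hf)) (by
        simp only [mem_insert, mem_singleton, forall_eq_or_imp, forall_eq, Pi.sub_apply,
          Pi.smul_apply, smul_eq_mul]
        constructor <;> ring)).cast (by decide)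
    refine no_not W1 ?_
    have k := (((c1.mul g4).sub y4).add ((f1.mul g3).mul e4.g)).add ((g1.g.mul e3).mul f4.g)
    exact (congrArg (G w 2) (by ring)).mp k

theorem no_of_six (w : Valuation K ℤᵐ⁰) {d : ℕ} (h : 6 ≤ d) :
    ∃ c : Finset (Fin d) → ℤ, MConvex c ∧
      ∀ L : AddSubgroup (Fin d → K), OMod w L → ¬ Ent w L c := by
  obtain ⟨b, hb⟩ : ∃ b : Bool, if b then E w 0 2 else G w 1 2 := by
    rcases (G_one.add G_one : G w 0 (1 + 1)).cases with k | k <;> rw [one_add_one_eq_two] at k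
    · exact ⟨true, k⟩
    · exact ⟨false, k⟩
  have hf := Fin.castLE_injective h
  refine ⟨_, no_pull hf (noC_mconvex b), fun L hL hE => no_six hb
    (L := L.map (LinearMap.funLeft K K (Fin.castLE h)).toAddMonoidHom) ?_ ⟨(noC_mconvex b).1, ?_⟩⟩
  · rintro a ha _ ⟨x, hx, rfl⟩
    exact ⟨a • x, hL a ha x hx, rfl⟩
  · intro I i hi
    have k := hE.2 (I.image (Fin.castLE h)) (Fin.castLE h i) (by simpa using hi)
    have k1 : ∀ J : Finset (Fin 6),
        ({a | Fin.castLE h a ∈ J.image (Fin.castLE h)} : Finset (Fin 6)) = J := fun J => by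
      ext a
      simp
    simp only [EntAt, ← image_insert, k1, forall_mem_image] at k
    refine ⟨?_, ?_⟩
    · rintro _ ⟨x, hx, rfl⟩ h0
      exact k.1 x hx h0
    · obtain ⟨x, hx, h0, h1⟩ := k.2
      exact ⟨_, ⟨x, hx, rfl⟩, h0, h1⟩

end Pool.Agent.Lib.MP_90534d_pr
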