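import Pool.Agent.Lib.MP_90534d_pr.Basic

/-! A lattice is built one basis vector at a time. -/

namespace Pool.Agent.Lib.MP_90534d_pr

open Finset
open scoped WithZero

variable {K : Type*} [Field K] {w : Valuation K ℤᵐ⁰} {ι : Type*} [DecidableEq ι]
  {c : Finset ι → ℤ}

variable (w c) in
/-- the state after `m` basis vectors -/
structure step_St (m : ℕ) (b : Fin m → ι → K) : Prop where
  ent : ∀ (I : Finset ι) (i : ι), I.card < m → i ∉ I → EntAt w (Lat w b) c I i
  inj : ∀ I : Finset ι, I.card = m → ∀ y ∈ Submodule.span K (Set.range b),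
    (∀ j ∈ I, y j = 0) → y = 0

omit [DecidableEq ι] in
lemma step_span {m : ℕ} {b : Fin m → ι → K} {x : ι → K} (h : x ∈ Lat w b) :
    x ∈ Submodule.span K (Set.range b) := by
  obtain ⟨t, -, rfl⟩ := h
  exact Submodule.sum_mem _ fun j _ => Submodule.smul_mem _ _ (Submodule.subset_span ⟨j, rfl⟩)

lemma step_surj {m : ℕ} {b : Fin m → ι → K} (h : step_St w c m b) (I : Finset ι) (hI : I.card ≤ m)
    (x : ι → K) : ∃ y ∈ Submodule.span K (Set.range b), ∀ j ∈ I, y j = x j := by
  induction I using Finset.induction_on with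
  | empty => exact ⟨0, Submodule.zero_mem _, by simp⟩
  | insert i I hi ih =>
    rw [card_insert_of_notMem hi] at hI
    obtain ⟨y, hy, hyx⟩ := ih (by omega)
    obtain ⟨e, he, he0, hei⟩ := (h.ent I i (by omega) hi).2
    refine ⟨y + ((x i - y i) / e i) • e,
      Submodule.add_mem _ hy (Submodule.smul_mem _ _ (step_span he)), fun j hj => ?_⟩
    rcases mem_insert.1 hj with rfl | hj
    · simp [div_mul_cancel₀ _ hei.ne]
    · simp [he0 j hj, hyx j hj]

lemma step_sp {m : ℕ} {b : Fin m → ι → K} (h : step_St w c m b) :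
    Sp w c m (Submodule.span K (Set.range b)) := by
  refine ⟨h.inj, fun I hI => step_surj h I hI.le, fun S hS => ?_⟩
  by_cases h0 : ∃ i, i ∉ S
  swap
  · exact ⟨0, Submodule.zero_mem _, by simp, fun i hi => absurd ⟨i, hi⟩ h0⟩
  obtain ⟨k, hk⟩ := h0
  obtain ⟨e, he, he0, hek⟩ := (h.ent S k (by omega) hk).2
  refine ⟨e, step_span he, he0, fun i hi => ?_⟩
  obtain ⟨f, hf, hf0, hfi⟩ := (h.ent S i (by omega) hi).2
  have h1 : f - (f k / e k) • e = 0 := by
    refine h.inj (insert k S) (by rw [card_insert_of_notMem hk, hS]) _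
      (Submodule.sub_mem _ (step_span hf) (Submodule.smul_mem _ _ (step_span he))) fun j hj => ?_
    rcases mem_insert.1 hj with rfl | hj
    · simp [div_mul_cancel₀ _ hek.ne]
    · simp [he0 j hj, hf0 j hj]
  have h2 : f i = f k / e k * e i := by simpa [sub_eq_zero] using congrFun h1 i
  have h3 := ((h.ent S k (by omega) hk).1 f hf hf0).div hek
  rcases ((h.ent S i (by omega) hi).1 e he he0).cases with h4 | h4
  · exact h4
  · have := hfi.le (h2 ▸ h3.mul h4)
    omega

omit [DecidableEq ι] in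
lemma step_cons {m : ℕ} {b : Fin m → ι → K} {x z : ι → K} :
    z ∈ Lat w (Fin.cons x b : Fin (m + 1) → ι → K) ↔
      ∃ a, G w 0 a ∧ ∃ y ∈ Lat w b, z = a • x + y := by
  constructor
  · rintro ⟨t, ht, rfl⟩
    exact ⟨t 0, ht 0, _, ⟨fun j => t j.succ, fun j => ht _, rfl⟩, by simp [Fin.sum_univ_succ]⟩
  · rintro ⟨a, ha, _, ⟨t, ht, rfl⟩, rfl⟩
    refine ⟨Fin.cons a t, fun j => ?_, by simp [Fin.sum_univ_succ]⟩
    refine Fin.cases ?_ (fun j => ?_) j
    · simpa using ha
    · simpa using ht j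

lemma step_succ [Fintype ι] (hc : MConvex c) {m : ℕ} (hm : m ≤ Fintype.card ι)
    {b : Fin m → ι → K} (h : step_St w c m b) {x₁ : ι → K}
    (hx : ∀ I : Finset ι, I.card = m → ∀ i ∉ I, At w (Submodule.span K (Set.range b)) c x₁ I i) :
    ∃ b' : Fin (m + 1) → ι → K, step_St w c (m + 1) b' := by
  obtain ⟨T, -, hT⟩ := exists_subset_card_eq (s := (univ : Finset ι)) (n := m) (by simpa using hm)
  obtain ⟨yT, hyT, hyTx⟩ := step_surj h T hT.le x₁
  obtain ⟨x, hxT, hE⟩ : ∃ x : ι → K, (∀ j ∈ T, x j = 0) ∧ ∀ I : Finset ι, I.card = m →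
      ∀ y ∈ Submodule.span K (Set.range b), (∀ j ∈ I, y j = x j) → ∀ i ∉ I,
        E w (c (insert i I) - c I) (x i - y i) := by
    refine ⟨x₁ - yT, fun j hj => by simp [hyTx j hj], fun I hI y hy hyx i hi => ?_⟩
    obtain ⟨y', hy', hy'x, hE⟩ := hx I hI i hi
    have h1 : y + yT - y' = 0 := h.inj I hI _
      (Submodule.sub_mem _ (Submodule.add_mem _ hy hyT) hy') fun j hj => by
        simp [hyx j hj, hy'x j hj]
    have h2 : y i + yT i - y' i = 0 := congrFun h1 i
    have h3 : (x₁ - yT) i - y i = x₁ i - y' i := by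
      rw [Pi.sub_apply]; linear_combination -h2
    rw [h3]; exact hE
  have claim : ∀ (n : ℕ) (J : Finset ι), (J \ T).card = n → J.card = m →
      ∃ y ∈ Lat w b, ∀ j ∈ J, y j = x j := by
    intro n
    induction n with
    | zero =>
      intro J h0 _
      refine ⟨0, AddSubgroup.zero_mem _, fun j hj => (hxT j ?_).symm⟩
      exact sdiff_eq_empty_iff_subset.1 (card_eq_zero.1 h0) hj
    | succ n ih =>
      intro J hn hJ
      obtain ⟨j, hj⟩ := card_pos.1 (show 0 < (J \ T).card by omega)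
      obtain ⟨i, hi⟩ : (T \ J).Nonempty := by
        apply card_pos.1
        have := card_sdiff_comm (hJ.trans hT.symm)
        omega
      rw [mem_sdiff] at hi hj
      obtain ⟨S, hjS, rfl⟩ : ∃ S, j ∉ S ∧ J = insert j S :=
        ⟨J.erase j, notMem_erase _ _, (insert_erase hj.1).symm⟩
      have hiS : i ∉ S := fun h' => hi.2 (mem_insert_of_mem h')
      have hij : j ≠ i := fun h' => hj.2 (h' ▸ hi.1)
      rw [card_insert_of_notMem hjS] at hJ
      have hc' : (insert i S).card = m := by rw [card_insert_of_notMem hiS, hJ]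
      obtain ⟨y, hy, hyx⟩ := ih (insert i S) (by
        rw [insert_sdiff_of_notMem _ hj.2, card_insert_of_notMem (by simp [hjS])] at hn
        rw [insert_sdiff_of_mem _ hi.1]; omega) hc'
      have h1 := hE _ hc' y (step_span hy) hyx j (by simp [hij, hjS])
      obtain ⟨e, he, he0, hej⟩ := (h.ent S j (by omega) hjS).2
      have h2 := hc.local hjS hiS hij
      refine ⟨y + ((x j - y j) / e j) • e, AddSubgroup.add_mem _ hy
        (Lat_omod b _ ((h1.g.div hej).mono (by omega)) e he), fun k hk => ?_⟩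
      rcases mem_insert.1 hk with rfl | hk
      · simp [div_mul_cancel₀ _ hej.ne]
      · simp [he0 k hk, hyx k (mem_insert_of_mem hk)]
  have key : ∀ I : Finset ι, I.card = m → ∀ y₁ ∈ Lat w b, (∀ j ∈ I, y₁ j = x j) → ∀ (a : K),
      ∀ y ∈ Submodule.span K (Set.range b), (∀ j ∈ I, (a • x + y) j = 0) →
      ∀ i, (a • x + y) i = a * (x i - y₁ i) := by
    intro I hI y₁ hy₁ hy₁x a y hy h0 i
    have h1 : a • y₁ + y = 0 := h.inj I hI _
      (Submodule.add_mem _ (Submodule.smul_mem _ _ (step_span hy₁)) hy) fun j hj => by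
        simpa [hy₁x j hj] using h0 j hj
    have h2 : a * y₁ i + y i = 0 := congrFun h1 i
    simp only [Pi.add_apply, Pi.smul_apply, smul_eq_mul]
    linear_combination h2
  refine ⟨Fin.cons x b, fun I i hI hi => ?_, fun J hJ z hz h0 => ?_⟩
  · rcases (Nat.lt_succ_iff.1 hI).eq_or_lt with hI | hI
    · obtain ⟨y₁, hy₁, hy₁x⟩ := claim _ I rfl hI
      have h1 := hE I hI y₁ (step_span hy₁) hy₁x i hi
      refine ⟨fun z hz h0 => ?_, x - y₁, step_cons.2 ⟨1, G_one, -y₁, AddSubgroup.neg_mem _ hy₁,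
        by simp [sub_eq_add_neg]⟩, fun j hj => by simp [hy₁x j hj], h1⟩
      obtain ⟨a, ha, y, hy, rfl⟩ := step_cons.1 hz
      rw [key I hI y₁ hy₁ hy₁x a y (step_span hy) h0]
      exact (ha.mul h1.g).cast (zero_add _)
    · obtain ⟨e, he, he'⟩ := (h.ent I i hI hi).2
      refine ⟨fun z hz h0 => ?_, e, step_cons.2 ⟨0, G_zero _, e, he, by simp⟩, he'⟩
      obtain ⟨a, ha, y, hy, rfl⟩ := step_cons.1 hz
      obtain ⟨J, hJ1, -, hJ⟩ := exists_subsuperset_card_eq (subset_univ (insert i I))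
        (n := m) (by rw [card_insert_of_notMem hi]; omega) (by simpa using hm)
      obtain ⟨y₁, hy₁, hy₁x⟩ := claim _ J rfl hJ
      have h1 := (h.ent I i hI hi).1 (a • y₁ + y)
        (AddSubgroup.add_mem _ (Lat_omod b a ha _ hy₁) hy) fun j hj => by
          simpa [hy₁x j (hJ1 (mem_insert_of_mem hj))] using h0 j hj
      simpa [hy₁x i (hJ1 (mem_insert_self _ _))] using h1
  · rw [Fin.range_cons, Submodule.mem_span_insert] at hz
    obtain ⟨a, y, hy, rfl⟩ := hz
    obtain ⟨i, I, hi, rfl, hI⟩ := card_eq_succ.1 hJ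
    obtain ⟨y₁, hy₁, hy₁x⟩ := claim _ I rfl hI
    have h1 := key I hI y₁ hy₁ hy₁x a y hy fun j hj => h0 j (mem_insert_of_mem hj)
    have h2 := h0 i (mem_insert_self _ _)
    rw [h1] at h2
    have h3 := (mul_eq_zero.1 h2).resolve_right (hE I hI y₁ (step_span hy₁) hy₁x i hi).ne
    funext k
    rw [h1, h3, zero_mul, Pi.zero_apply]

theorem realise_of_ext [Fintype ι] (hc : MConvex c)
    (hext : ∀ m < Fintype.card ι, ∀ W, Sp w c m W →
      ∃ x, ∀ I : Finset ι, I.card = m → ∀ i ∉ I, At w W c x I i) :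
    ∃ b : Fin (Fintype.card ι) → ι → K, Submodule.span K (Set.range b) = ⊤ ∧
      Ent w (Lat w b) c := by
  have main : ∀ m ≤ Fintype.card ι, ∃ b : Fin m → ι → K, step_St w c m b := by
    intro m
    induction m with
    | zero =>
      intro _
      refine ⟨Fin.elim0, fun I i hI => absurd hI (Nat.not_lt_zero _), fun I _ y hy _ => ?_⟩
      simpa [Set.range_eq_empty] using hy
    | succ m ih =>
      intro hm
      obtain ⟨b, hb⟩ := ih (by omega)
      obtain ⟨x, hx⟩ := hext m hm _ (step_sp hb)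
      exact step_succ hc (by omega) hb hx
  obtain ⟨b, hb⟩ := main _ le_rfl
  refine ⟨b, eq_top_iff.2 fun x _ => ?_, hc.1, fun I i hi => hb.ent I i ?_ hi⟩
  · obtain ⟨y, hy, hyx⟩ := step_surj hb univ card_univ.le x
    rwa [← (funext fun j => hyx j (mem_univ j) : y = x)]
  · rw [← card_univ]
    exact card_lt_card (ssubset_univ_iff.2 fun h => hi (h ▸ mem_univ i))

end Pool.Agent.Lib.MP_90534d_pr
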