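import Pool.Agent.Lib.MP_90534d_pr.Ent
import Pool.Agent.Lib.MP_90534d_pr.Meas
import Pool.Agent.Lib.MP_90534d_pr.No
import Pool.Agent.Lib.MP_90534d_pr.Step
import Pool.Agent.Lib.MP_90534d_pr.Five

/-! Assembly. -/

namespace Pool.Agent.Lib.MP_90534d_pr

open Finset MeasureTheory

lemma final_span {K : Type*} [Field K] {d : ℕ} (A : Matrix (Fin d) (Fin d) K) :
    A.det ≠ 0 ↔ Submodule.span K (Set.range fun j i => A i j) = ⊤ := by
  rw [← isUnit_iff_ne_zero, ← Matrix.isUnit_iff_isUnit_det, ← Matrix.mulVec_surjective_iff_isUnit,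
    ← Matrix.coe_mulVecLin, ← LinearMap.range_eq_top, Matrix.range_mulVecLin]
  rfl

variable {K : Type*} [Field K] [ValuativeRel K] [TopologicalSpace K]
  [IsNonarchimedeanLocalField K] {d : ℕ} [MeasurableSpace (Fin d → K)] [BorelSpace (Fin d → K)]
  (μ : Measure (Fin d → K)) [μ.IsAddHaarMeasure]

/-- every tail function is a tropical polynomial with coefficients in the class -/
theorem tail_mconvex (A : Matrix (Fin d) (Fin d) K) (hA : A.det ≠ 0) :
    ∃ c : Finset (Fin d) → ℤ, Ent (wK K) (Lat (wK K) fun j i => A i j) c ∧ MConvex c ∧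
      tail μ A = fun v => (trop c v : ℝ) := by
  obtain ⟨R, hR, -⟩ := exists_res K
  obtain ⟨c, hc⟩ := ent_exists hR _ ((final_span A).1 hA)
  exact ⟨c, hc, hc.mconvex (Lat_omod _), funext fun v => tail_eq μ A hc v⟩

theorem final :
    (∀ φ : (Fin d → ℤ) → ℝ, (∃ A : Matrix (Fin d) (Fin d) K, A.det ≠ 0 ∧ φ = tail μ A) ↔
      ∃ c : Finset (Fin d) → ℤ, MConvex c ∧ φ = fun v => (trop c v : ℝ)) ↔
    d ≤ 5 ∧ d ≤ resCard K := by
  obtain ⟨R, hR, hq⟩ := exists_res K
  constructor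
  · intro h
    have key : ∀ c : Finset (Fin d) → ℤ, MConvex c →
        ∃ L : AddSubgroup (Fin d → K), OMod (wK K) L ∧ Ent (wK K) L c := by
      intro c hc
      obtain ⟨A, hA, e⟩ := (h _).2 ⟨c, hc, rfl⟩
      obtain ⟨c', hc', -, e'⟩ := tail_mconvex μ A hA
      have : c = c' := trop_inj fun v => by exact_mod_cast congrFun (e.trans e') v
      exact ⟨_, Lat_omod _, this ▸ hc'⟩
    constructor
    · by_contra h6
      obtain ⟨c, hc, hno⟩ := no_of_six (wK K) (show 6 ≤ d by omega)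
      obtain ⟨L, h1, h2⟩ := key c hc
      exact hno L h1 h2
    · by_contra h6
      obtain ⟨c, hc, hno⟩ := no_of_card_lt hR (show R.card < d by omega)
      obtain ⟨L, h1, h2⟩ := key c hc
      exact hno L h1 h2
  · rintro ⟨h5, hd⟩ φ
    constructor
    · rintro ⟨A, hA, rfl⟩
      obtain ⟨c, -, hc⟩ := tail_mconvex μ A hA
      exact ⟨c, hc⟩
    · rintro ⟨c, hc, rfl⟩
      have := realise_of_ext (w := wK K) hc fun m _ W hW => ext_small hR h5 (hq ▸ hd) hc hW
      rw [Fintype.card_fin] at this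
      obtain ⟨b, hb, hE⟩ := this
      exact ⟨Matrix.of fun i j => b j i, (final_span _).2 hb,
        funext fun v => (tail_eq μ (Matrix.of fun i j => b j i) hE v).symm⟩

end Pool.Agent.Lib.MP_90534d_pr
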