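import Pool.Agent.Lib.MP_90534d_pr.Basic

/-! The index of a box in a module with given entropy vector. -/

namespace Pool.Agent.Lib.MP_90534d_pr

open Finset
open scoped WithZero

section
variable {K : Type*} [Field K] {w : Valuation K ℤᵐ⁰} {R : Finset K}
  {ι : Type*} [DecidableEq ι] {L : AddSubgroup (ι → K)} {c : Finset ι → ℤ}

variable (w) in
/-- elements of valuation at least `n` -/
def indexBall (n : ℤ) : AddSubgroup K where
  carrier := {x | G w n x}
  zero_mem' := G_zero _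
  add_mem' := fun hx hy => G.add hx hy
  neg_mem' := fun hx => G.neg hx

lemma index_mem {n : ℤ} {x : K} : x ∈ indexBall w n ↔ G w n x := Iff.rfl

lemma index_step (hR : Res w R) (n : ℤ) :
    (indexBall w (n + 1)).relIndex (indexBall w n) = R.card := by
  obtain ⟨p, hp⟩ := hR.surj n
  have hm : ∀ r : R, r.1 * p ∈ indexBall w n := fun r =>
    ((hR.int r.1 r.2).mul hp.g).cast (zero_add n)
  rw [AddSubgroup.relIndex, AddSubgroup.index_eq_card, ← Nat.card_eq_finsetCard]
  refine (Nat.card_eq_of_bijective (fun r : R => (QuotientAddGroup.mk ⟨r.1 * p, hm r⟩ :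
    indexBall w n ⧸ (indexBall w (n + 1)).addSubgroupOf (indexBall w n))) ⟨?_, ?_⟩).symm
  · intro r s hrs
    by_contra hne
    have h1 : G w (n + 1) (-(r.1 * p) + s.1 * p) := QuotientAddGroup.eq.1 hrs
    have h2 := (hR.sep s.1 s.2 r.1 r.2 fun e => hne (Subtype.ext e.symm)).mul hp
    rw [show -(r.1 * p) + s.1 * p = (s.1 - r.1) * p by ring] at h1
    have := h2.le h1
    omega
  · intro z
    obtain ⟨x, rfl⟩ := QuotientAddGroup.mk_surjective z
    obtain ⟨r, hr, h1⟩ := hR.cov (x.1 / p) ((G.div x.2 hp).cast (sub_self n))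
    refine ⟨⟨r, hr⟩, QuotientAddGroup.eq.2 ?_⟩
    have h2 := (h1.mul hp.g).cast (add_comm 1 n)
    rw [show (x.1 / p - r) * p = -(r * p) + x.1 by field_simp [hp.ne]; ring] at h2
    exact h2

lemma index_ball (hR : Res w R) (n : ℤ) (k : ℕ) :
    (indexBall w (n + k)).relIndex (indexBall w n) = R.card ^ k := by
  induction k with
  | zero => simp
  | succ k ih =>
    rw [← AddSubgroup.relIndex_mul_relIndex (indexBall w (n + (k + 1 : ℕ))) (indexBall w (n + k))
      (indexBall w n) (fun x hx => G.mono hx (by omega)) (fun x hx => G.mono hx (by omega)), ih,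
      show n + ((k + 1 : ℕ) : ℤ) = n + k + 1 by omega, index_step hR, pow_succ']

/-- the dual vectors of a set of coordinates -/
lemma index_eps (h : Ent w L c) (I0 : Finset ι) : ∃ ε : ι → ι → K, ∀ s ∈ I0, ε s ∈ L ∧
    (∀ j ∈ I0.erase s, ε s j = 0) ∧ E w (c I0 - c (I0.erase s)) (ε s s) := by
  have h1 : ∀ s, ∃ x : ι → K, s ∈ I0 → x ∈ L ∧ (∀ j ∈ I0.erase s, x j = 0) ∧
      E w (c I0 - c (I0.erase s)) (x s) := by
    intro s
    by_cases hs : s ∈ I0
    · obtain ⟨x, hx, h2, h3⟩ := (h.2 (I0.erase s) s (notMem_erase s I0)).2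
      rw [insert_erase hs] at h3
      exact ⟨x, fun _ => ⟨hx, h2, h3⟩⟩
    · exact ⟨0, fun hs' => absurd hs' hs⟩
  choose ε hε using h1
  exact ⟨ε, hε⟩

/-- an element of `L` with prescribed coordinates on `I0` -/
lemma index_lift (hL : OMod w L) (h : Ent w L c) {I0 I : Finset ι} (hI : I ⊆ I0) {v : ι → ℤ}
    (hv : ∀ s ∈ I0, c I0 - c (I0.erase s) ≤ v s) {x : ι → K} (hx : x ∈ Box w v I) :
    ∃ y ∈ L, (∀ j ∈ I, y j = x j) ∧ (∀ j ∈ I0, j ∉ I → y j = 0) ∧
      ∀ j ∉ I0, ∀ n : ℤ, (∀ s ∈ I, n ≤ v s - c I0 + c (insert j (I0.erase s))) → G w n (y j) := by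
  obtain ⟨ε, hε⟩ := index_eps h I0
  have h1 : ∀ s ∈ I, G w (v s - (c I0 - c (I0.erase s))) (x s / ε s s) := fun s hs =>
    (hx s hs).div (hε s (hI hs)).2.2
  refine ⟨∑ s ∈ I, (x s / ε s s) • ε s, L.sum_mem fun s hs => hL _ ((h1 s hs).mono
    (by have := hv s (hI hs); omega)) _ (hε s (hI hs)).1, fun j hj => ?_, fun j hj hj' => ?_,
    fun j hj n hn => ?_⟩
  · rw [Finset.sum_apply, sum_eq_single_of_mem j hj fun s hs hne => ?_]
    · rw [Pi.smul_apply, smul_eq_mul, div_mul_cancel₀ _ (hε j (hI hj)).2.2.ne]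
    · rw [Pi.smul_apply, (hε s (hI hs)).2.1 j (mem_erase.2 ⟨hne.symm, hI hj⟩), smul_zero]
  · rw [Finset.sum_apply]
    refine sum_eq_zero fun s hs => ?_
    rw [Pi.smul_apply, (hε s (hI hs)).2.1 j (mem_erase.2 ⟨fun e => hj' (e ▸ hs), hj⟩), smul_zero]
  · rw [Finset.sum_apply]
    refine G.sum fun s hs => ?_
    have h2 := (h.2 (I0.erase s) j fun e => hj (mem_of_mem_erase e)).1 _ (hε s (hI hs)).1
      (hε s (hI hs)).2.1
    exact ((h1 s hs).mul h2).mono (by have := hn s hs; omega)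

lemma index_ind (hR : Res w R) (hL : OMod w L) (h : Ent w L c) {I0 : Finset ι} {v : ι → ℤ}
    (hv : ∀ s ∈ I0, c I0 - c (I0.erase s) ≤ v s) (I : Finset ι) (hI : I ⊆ I0) :
    ∃ n : ℕ, (n : ℤ) = ∑ i ∈ I, v i - c I ∧ (Box w v I).relIndex L = R.card ^ n := by
  induction I using Finset.induction_on with
  | empty =>
    refine ⟨0, by simp [h.1], ?_⟩
    rw [pow_zero, AddSubgroup.relIndex_eq_one]
    intro x _ i hi
    exact absurd hi (notMem_empty i)
  | insert i I hi ih =>
    have hI' : I ⊆ I0 := (subset_insert i I).trans hI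
    have hi0 : i ∈ I0 := hI (mem_insert_self i I)
    obtain ⟨n, hn, hn'⟩ := ih hI'
    obtain ⟨h1, e, he, he0, he1⟩ := h.2 I i hi
    have h2 : c (insert i I) - c I ≤ v i := by
      obtain ⟨ε, hε⟩ := index_eps h I0
      obtain ⟨a1, a2, a3⟩ := hε i hi0
      exact (a3.le (h1 _ a1 fun j hj =>
        a2 j (mem_erase.2 ⟨fun e => hi (e ▸ hj), hI' hj⟩))).trans (hv i hi0)
    obtain ⟨k, hk⟩ := Int.le.dest h2
    have h3 : Box w v (insert i I) =
        (indexBall w (v i)).comap (Pi.evalAddMonoidHom (fun _ => K) i) ⊓ Box w v I := by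
      ext x
      rw [mem_Box, forall_mem_insert]
      exact Iff.rfl
    have h4 : (Box w v I ⊓ L).map (Pi.evalAddMonoidHom (fun _ => K) i) =
        indexBall w (c (insert i I) - c I) := by
      ext a
      constructor
      · rintro ⟨x, ⟨hx, hx'⟩, rfl⟩
        obtain ⟨y, hy, b1, b2, -⟩ := index_lift hL h hI' hv hx
        have := h1 (x - y) (L.sub_mem hx' hy) fun j hj => by
          rw [Pi.sub_apply, b1 j hj, sub_self]
        rwa [Pi.sub_apply, b2 i hi0 hi, sub_zero] at this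
      · intro ha
        refine ⟨(a / e i) • e, ⟨fun j hj => ?_, hL _ ((G.div ha he1).cast (sub_self _)) _ he⟩, ?_⟩
        · rw [Pi.smul_apply, he0 j hj, smul_zero]
          exact G_zero _
        · exact div_mul_cancel₀ a he1.ne
    refine ⟨k + n, ?_, ?_⟩
    · rw [sum_insert hi]
      push_cast
      omega
    · rw [h3, ← AddSubgroup.relIndex_inf_mul_relIndex, AddSubgroup.relIndex_comap, h4, ← hk,
        index_ball hR, hn', pow_add]

theorem Ent.index [Fintype ι] (hR : Res w R) (hL : OMod w L) (h : Ent w L c) (v : ι → ℤ) :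
    ∃ n : ℕ, (n : ℤ) = trop c v ∧ (Box w v univ).relIndex L = R.card ^ n := by
  obtain ⟨I0, -, h0⟩ := exists_mem_eq_sup' (s := (univ : Finset (Finset ι))) univ_nonempty
    fun I => ∑ i ∈ I, v i - c I
  have hmax : ∀ I : Finset ι, ∑ i ∈ I, v i - c I ≤ ∑ i ∈ I0, v i - c I0 := fun I =>
    h0 ▸ le_sup' (fun I : Finset ι => ∑ i ∈ I, v i - c I) (mem_univ I)
  have hv : ∀ s ∈ I0, c I0 - c (I0.erase s) ≤ v s := by
    intro s hs
    have h1 := hmax (I0.erase s)
    rw [← add_sum_erase I0 v hs] at h1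
    omega
  obtain ⟨n, hn, hn'⟩ := index_ind hR hL h hv I0 Subset.rfl
  refine ⟨n, hn.trans h0.symm, ?_⟩
  rw [← hn', ← AddSubgroup.inf_relIndex_right, ← AddSubgroup.inf_relIndex_right (Box w v I0)]
  congr 1
  ext x
  refine ⟨fun hx => ⟨fun j _ => hx.1 j (mem_univ j), hx.2⟩, fun hx => ⟨fun j _ => ?_, hx.2⟩⟩
  by_cases hj : j ∈ I0
  · exact hx.1 j hj
  obtain ⟨y, hy, b1, -, b3⟩ := index_lift hL h Subset.rfl hv hx.1
  have h1 := (h.2 I0 j hj).1 (x - y) (L.sub_mem hx.2 hy) fun i hi => by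
    rw [Pi.sub_apply, b1 i hi, sub_self]
  have h2 := hmax (insert j I0)
  rw [sum_insert hj] at h2
  have h3 := b3 j hj (v j) fun s hs => by
    have h4 := hmax (insert j (I0.erase s))
    rw [sum_insert fun e => hj (mem_of_mem_erase e), ← add_sum_erase I0 v hs] at h4
    omega
  have h5 := (h1.mono (show v j ≤ _ by omega)).add h3
  rwa [Pi.sub_apply, sub_add_cancel] at h5

theorem Ent.le_box [Fintype ι] (h : Ent w L c) : L ≤ Box w (fun i => c {i}) univ := by
  intro x hx i _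
  have h1 := (h.2 ∅ i (notMem_empty i)).1 x hx fun j hj => absurd hj (notMem_empty j)
  rwa [h.1, sub_zero, insert_empty_eq] at h1

theorem Ent.box_le [Fintype ι] (hL : OMod w L) (h : Ent w L c) :
    Box w (fun i => c univ - c (univ.erase i)) univ ≤ L := by
  intro x hx
  obtain ⟨y, hy, b1, -, -⟩ := index_lift hL h Subset.rfl (fun _ _ => le_rfl) hx
  rwa [show x = y from funext fun j => (b1 j (mem_univ j)).symm]

end

end Pool.Agent.Lib.MP_90534d_pr
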